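import Mathlib

/-!
Long-range percolation on a countable group: generating measures, the random multigraph
`Γ_μ(l)` and the critical parameter `λ_c(μ)`.
-/

set_option autoImplicit false

open MeasureTheory ProbabilityTheory
open scoped ENNReal NNReal

namespace Pool.Agent.V11321.LRP

/-- A generating measure on the group `Γ`: a probability measure `μ` on `Γ` which is symmetric,
`μ (g⁻¹) = μ g`, and whose support generates `Γ`. -/
structure GenMeasure (Γ : Type*) [Group Γ] where
  /-- the probability measure, given by its point masses -/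
  toPMF : PMF Γ
  symm : ∀ g, toPMF g⁻¹ = toPMF g
  gen : Subgroup.closure toPMF.support = ⊤

namespace GenMeasure

variable {Γ : Type*} [Group Γ]

/-- The number `μ (g⁻¹ h)` attached to the unordered pair `{g, h}`. -/
noncomputable def pair (μ : GenMeasure Γ) : Sym2 Γ → ℝ≥0 :=
  Sym2.lift ⟨fun g h => (μ.toPMF (g⁻¹ * h)).toNNReal, fun g h => by
    have e : h⁻¹ * g = (g⁻¹ * h)⁻¹ := by group
    simp only [e, μ.symm]⟩

/-- The law of the random multigraph `Γ_μ(l)`: the numbers of edges between the unordered pairs
`{g, h}` are independent Poisson variables of mean `l * μ (g⁻¹ h)`. (The entries of the diagonal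
pairs `{g, g}` play no role, see `graph`.) -/
noncomputable def law (μ : GenMeasure Γ) (l : ℝ≥0) : Measure (Sym2 Γ → ℕ) :=
  Measure.infinitePi (fun e => poissonMeasure (l * μ.pair e))

end GenMeasure

/-- The simple graph obtained from a multigraph by merging parallel edges (and ignoring loops):
distinct `g` and `h` are adjacent when at least one edge joins them. -/
def graph {Γ : Type*} (ω : Sym2 Γ → ℕ) : SimpleGraph Γ where
  Adj g h := g ≠ h ∧ 0 < ω s(g, h)
  symm := ⟨fun g h H => ⟨H.1.symm, by rw [Sym2.eq_swap]; exact H.2⟩⟩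
  loopless := ⟨fun g H => H.1 rfl⟩

/-- The multigraph has an infinite connected component. -/
def HasInfiniteComponent {Γ : Type*} (ω : Sym2 Γ → ℕ) : Prop :=
  ∃ c : (graph ω).ConnectedComponent, c.supp.Infinite

/-- The critical parameter `λ_c(μ) = sup {l > 0 : ℙ(Γ_μ(l) has an infinite component) = 0}`, an
element of `[0, ∞]`. -/
noncomputable def GenMeasure.lambdaC {Γ : Type*} [Group Γ] (μ : GenMeasure Γ) : ℝ≥0∞ :=
  sSup {x : ℝ≥0∞ | ∃ l : ℝ≥0, 0 < l ∧ μ.law l {ω | HasInfiniteComponent ω} = 0 ∧ x = l}

end Pool.Agent.V11321.LRP
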