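import Mathlib

set_option autoImplicit false

open MeasureTheory ProbabilityTheory
open scoped ENNReal NNReal

namespace Pool.Agent.V11321.LRP

section general

variable {E : Type*}

/-- Independent Poisson variables with means `w e`. -/
noncomputable def P (w : E → ℝ≥0) : Measure (E → ℕ) :=
  Measure.infinitePi (fun e => poissonMeasure (w e))

instance (w : E → ℝ≥0) : IsProbabilityMeasure (P w) := by
  unfold P; infer_instance

lemma map_prod_infinitePi (μ ν : E → Measure ℕ)
    [∀ e, IsProbabilityMeasure (μ e)] [∀ e, IsProbabilityMeasure (ν e)] :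
    ((Measure.infinitePi μ).prod (Measure.infinitePi ν)).map (fun p e => (p.1 e, p.2 e))
      = Measure.infinitePi (fun e => (μ e).prod (ν e)) := by
  classical
  have hmeas : Measurable (fun (p : (E → ℕ) × (E → ℕ)) (e : E) => (p.1 e, p.2 e)) := by fun_prop
  refine Measure.eq_infinitePi _ fun s t ht => ?_
  have hpi : (s : Set E).pi t = s.restrict ⁻¹' (Set.univ.pi fun i : s => t i) := by
    ext x; simp
  rw [hpi, ← Measure.map_apply (by fun_prop) (MeasurableSet.univ_pi fun i : s => ht i),
    Measure.map_map (by fun_prop) hmeas]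
  have key : ((Measure.infinitePi μ).prod (Measure.infinitePi ν)).map
      ((s.restrict : (E → ℕ × ℕ) → _) ∘ fun p e => (p.1 e, p.2 e))
      = Measure.pi (fun i : s => (μ i).prod (ν i)) := by
    refine Measure.ext_of_singleton (fun z => ?_)
    rw [Measure.map_apply (by fun_prop) (measurableSet_singleton z), Measure.pi_singleton]
    have h1 : ((s.restrict : (E → ℕ × ℕ) → _) ∘ fun (p : (E → ℕ) × (E → ℕ)) e => (p.1 e, p.2 e))
        ⁻¹' {z} = ((s : Set E).pi (fun e => if h : e ∈ s then {(z ⟨e, h⟩).1} else Set.univ)) ×ˢ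
          ((s : Set E).pi (fun e => if h : e ∈ s then {(z ⟨e, h⟩).2} else Set.univ)) := by
      ext p
      simp only [Set.mem_preimage, Function.comp_apply, Set.mem_singleton_iff, Set.mem_prod,
        Set.mem_pi, Finset.mem_coe]
      constructor
      · intro h
        constructor
        · intro e he
          rw [dif_pos he]
          have := congrFun h ⟨e, he⟩
          simp only [Finset.restrict] at this
          simp [← this]
        · intro e he
          rw [dif_pos he]
          have := congrFun h ⟨e, he⟩
          simp only [Finset.restrict] at this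
          simp [← this]
      · rintro ⟨h1, h2⟩
        funext ⟨e, he⟩
        have a1 := h1 e he
        have a2 := h2 e he
        rw [dif_pos he] at a1 a2
        simp only [Set.mem_singleton_iff] at a1 a2
        simp only [Finset.restrict]
        rw [a1, a2]
    rw [h1, Measure.prod_prod, Measure.infinitePi_pi, Measure.infinitePi_pi,
      ← Finset.prod_mul_distrib, ← Finset.prod_coe_sort]
    · refine Finset.prod_congr rfl fun i _ => ?_
      have : ({z i} : Set (ℕ × ℕ)) = {(z i).1} ×ˢ {(z i).2} := by simp
      rw [this, Measure.prod_prod, dif_pos i.2, dif_pos i.2]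
    · intro i hi; rw [dif_pos hi]; exact measurableSet_singleton _
    · intro i hi; rw [dif_pos hi]; exact measurableSet_singleton _
  rw [key, Measure.pi_pi]
  exact Finset.prod_coe_sort s (fun i => ((μ i).prod (ν i)) (t i))

lemma P_add (w₁ w₂ : E → ℝ≥0) :
    ((P w₁).prod (P w₂)).map (fun p e => p.1 e + p.2 e) = P (fun e => w₁ e + w₂ e) := by
  have h1 := map_prod_infinitePi (fun e => poissonMeasure (w₁ e)) (fun e => poissonMeasure (w₂ e))
  have h2 : (fun (p : (E → ℕ) × (E → ℕ)) (e : E) => p.1 e + p.2 e)
      = (fun (h : E → ℕ × ℕ) (e : E) => (h e).1 + (h e).2) ∘ (fun p e => (p.1 e, p.2 e)) := by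
    funext p e; rfl
  rw [h2, ← Measure.map_map (by fun_prop) (by fun_prop)]
  unfold P
  rw [h1, Measure.infinitePi_map_pi (μ := fun e => (poissonMeasure (w₁ e)).prod (poissonMeasure (w₂ e)))
    (f := fun _ q => q.1 + q.2) (hf := fun _ => by fun_prop)]
  congr 1
  funext e
  exact poissonMeasure_conv_poissonMeasure (w₁ e) (w₂ e)

lemma P_mono {w w' : E → ℝ≥0} (h : w ≤ w') {A : Set (E → ℕ)} (hA : MeasurableSet A)
    (hup : IsUpperSet A) : P w A ≤ P w' A := by
  have h1 : w' = fun e => w e + (w' e - w e) := by
    funext e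
    exact (add_tsub_cancel_of_le (h e)).symm
  rw [h1, ← P_add w (fun e => w' e - w e), Measure.map_apply (by fun_prop) hA]
  calc P w A = ((P w).prod (P fun e => w' e - w e)) (A ×ˢ Set.univ) := by
        rw [Measure.prod_prod, measure_univ, mul_one]
    _ ≤ _ := by
        refine measure_mono ?_
        rintro ⟨a, b⟩ ⟨ha, -⟩
        refine hup ?_ ha
        intro e
        exact Nat.le_add_right _ _

/-- A function depending on finitely many coordinates is measurable. -/
lemma measurable_of_dependsOn {α : Type*} [MeasurableSpace α] (I : Finset E) (F : (E → ℕ) → α)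
    (hF : DependsOn F (I : Set E)) : Measurable F := by
  classical
  have : F = (fun z : I → ℕ => F (fun e => if h : e ∈ I then z ⟨e, h⟩ else 0)) ∘ I.restrict := by
    funext ω
    refine hF ?_
    intro e he
    have he' : e ∈ I := he
    simp [he']
  rw [this]
  exact (measurable_of_countable _).comp (by fun_prop)

lemma measurableSet_of_dependsOn (I : Finset E) (A : Set (E → ℕ))
    (hA : DependsOn (fun ω => ω ∈ A) (I : Set E)) : MeasurableSet A := by
  have := measurable_of_dependsOn I (fun ω => ω ∈ A) hA
  exact measurableSet_setOfPred.mpr this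

lemma lintegral_mul_of_dependsOn (w : E → ℝ≥0) (I J : Finset E) (hIJ : Disjoint I J)
    (F G : (E → ℕ) → ℝ≥0∞) (hF : DependsOn F (I : Set E)) (hG : DependsOn G (J : Set E)) :
    ∫⁻ ω, F ω * G ω ∂(P w) = (∫⁻ ω, F ω ∂(P w)) * ∫⁻ ω, G ω ∂(P w) := by
  classical
  have hind : iIndepFun (fun (i : E) (ω : E → ℕ) => ω i) (P w) := by
    unfold P
    exact iIndepFun_infinitePi (X := fun _ x => x) (fun _ => measurable_id)
  have h2 := hind.indepFun_finset I J hIJ (fun i => measurable_pi_apply i)
  set F' : (I → ℕ) → ℝ≥0∞ := fun z => F (fun e => if h : e ∈ I then z ⟨e, h⟩ else 0) with hF'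
  set G' : (J → ℕ) → ℝ≥0∞ := fun z => G (fun e => if h : e ∈ J then z ⟨e, h⟩ else 0) with hG'
  have eF : F = F' ∘ (fun (ω : E → ℕ) (i : I) => ω i) := by
    funext ω
    refine hF ?_
    intro e he
    have he' : e ∈ I := he
    simp [he']
  have eG : G = G' ∘ (fun (ω : E → ℕ) (i : J) => ω i) := by
    funext ω
    refine hG ?_
    intro e he
    have he' : e ∈ J := he
    simp [he']
  have h3 := h2.comp (φ := F') (ψ := G') (measurable_of_countable _) (measurable_of_countable _)
  rw [← eF, ← eG] at h3
  exact lintegral_mul_eq_lintegral_mul_lintegral_of_indepFun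
    (measurable_of_dependsOn I F hF) (measurable_of_dependsOn J G hG) h3

lemma P_zero_set (w : E → ℝ≥0) (F : Finset E) :
    P w {ω | ∀ e ∈ F, ω e = 0} = ∏ e ∈ F, ENNReal.ofReal (Real.exp (-(w e : ℝ))) := by
  have : {ω : E → ℕ | ∀ e ∈ F, ω e = 0} = (F : Set E).pi (fun _ => {0}) := by
    ext ω; simp [Set.mem_pi]
  rw [this]
  unfold P
  rw [Measure.infinitePi_pi]
  · refine Finset.prod_congr rfl fun e _ => ?_
    rw [poissonMeasure_singleton]
    simp
  · intro i _; exact measurableSet_singleton _

end general

end Pool.Agent.V11321.LRP
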