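import Mathlib
import Pool.Agent.V11321.LRP.Basic

set_option autoImplicit false

open MeasureTheory ProbabilityTheory
open scoped ENNReal NNReal

namespace Pool.Agent.V11321.LRP

section graph

variable {V : Type*}

/-- The graph of the pairs inside `B` which carry at least one edge. -/
def gIn (ω : Sym2 V → ℕ) (B : Set V) : SimpleGraph V where
  Adj x y := x ≠ y ∧ 0 < ω s(x, y) ∧ x ∈ B ∧ y ∈ B
  symm := ⟨fun x y h => ⟨h.1.symm, by rw [Sym2.eq_swap]; exact h.2.1, h.2.2.2, h.2.2.1⟩⟩
  loopless := ⟨fun x h => h.1 rfl⟩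

/-- The cluster of `x` inside `B`. -/
def clu (ω : Sym2 V → ℕ) (B : Set V) (x : V) : Set V := {y | (gIn ω B).Reachable x y}

/-- The cluster of `x` inside `B` has at least `M` points. -/
def big (B : Set V) (x : V) (M : ℕ) : Set (Sym2 V → ℕ) := {ω | (M : ℕ∞) ≤ (clu ω B x).encard}

lemma gIn_mono {ω ω' : Sym2 V → ℕ} {B B' : Set V} (h : ω ≤ ω') (hB : B ⊆ B') :
    gIn ω B ≤ gIn ω' B' := by
  intro x y hxy
  exact ⟨hxy.1, lt_of_lt_of_le hxy.2.1 (h _), hB hxy.2.2.1, hB hxy.2.2.2⟩

lemma clu_mono {ω ω' : Sym2 V → ℕ} {B B' : Set V} (h : ω ≤ ω') (hB : B ⊆ B') (x : V) :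
    clu ω B x ⊆ clu ω' B' x := by
  intro y hy
  exact SimpleGraph.Reachable.mono (gIn_mono h hB) hy

lemma mem_clu_self (ω : Sym2 V → ℕ) (B : Set V) (x : V) : x ∈ clu ω B x :=
  SimpleGraph.Reachable.refl x

lemma clu_subset {ω : Sym2 V → ℕ} {B : Set V} {x : V} (hx : x ∈ B) : clu ω B x ⊆ B := by
  intro y hy
  obtain ⟨p⟩ := (hy : (gIn ω B).Reachable x y)
  induction p with
  | nil => exact hx
  | cons h p ih => exact ih h.2.2.2

lemma gIn_congr {ω ω' : Sym2 V → ℕ} {B : Finset V}
    (h : ∀ e ∈ (B.sym2 : Set (Sym2 V)), ω e = ω' e) : gIn ω (B : Set V) = gIn ω' B := by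
  ext x y
  have key : x ∈ B → y ∈ B → ω s(x, y) = ω' s(x, y) := by
    intro hx hy
    exact h _ (by simp [hx, hy])
  constructor
  · rintro ⟨a, b, c, d⟩
    exact ⟨a, by rw [← key c d]; exact b, c, d⟩
  · rintro ⟨a, b, c, d⟩
    exact ⟨a, by rw [key c d]; exact b, c, d⟩

lemma clu_dependsOn (B : Finset V) (x : V) :
    DependsOn (fun ω : Sym2 V → ℕ => clu ω (B : Set V) x) (B.sym2 : Set (Sym2 V)) := by
  intro ω ω' h
  simp only [clu]
  rw [gIn_congr h]

lemma big_dependsOn (B : Finset V) (x : V) (M : ℕ) :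
    DependsOn (fun ω : Sym2 V → ℕ => ω ∈ big (B : Set V) x M) (B.sym2 : Set (Sym2 V)) := by
  intro ω ω' h
  have := clu_dependsOn B x h
  simp only [big, Set.mem_ofPred_eq] at this ⊢
  rw [this]

lemma measurableSet_big_finset (B : Finset V) (x : V) (M : ℕ) :
    MeasurableSet (big (B : Set V) x M) :=
  measurableSet_of_dependsOn _ _ (big_dependsOn B x M)

lemma big_mono {B B' : Set V} (hB : B ⊆ B') (x : V) (M : ℕ) : big B x M ⊆ big B' x M := by
  intro ω hω
  exact le_trans hω (Set.encard_le_encard (clu_mono le_rfl hB x))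

lemma isUpperSet_big (B : Set V) (x : V) (M : ℕ) : IsUpperSet (big B x M) := by
  intro ω ω' h hω
  exact le_trans hω (Set.encard_le_encard (clu_mono h subset_rfl x))

/-- A finite part of a cluster lives in a finite set. -/
lemma exists_finset_clu (ω : Sym2 V → ℕ) (x : V) (T : Finset V) (hT : (T : Set V) ⊆ clu ω Set.univ x) :
    ∃ B : Finset V, x ∈ B ∧ (T : Set V) ⊆ clu ω (B : Set V) x := by
  classical
  induction T using Finset.induction_on with
  | empty => exact ⟨{x}, by simp, by simp⟩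
  | insert a s has ih =>
    obtain ⟨B, hxB, hB⟩ := ih (fun y hy => hT (by simp at hy ⊢; right; exact hy))
    have ha : a ∈ clu ω Set.univ x := hT (by simp)
    obtain ⟨p⟩ := (ha : (gIn ω Set.univ).Reachable x a)
    have key : ∀ (u v : V) (p : (gIn ω Set.univ).Walk u v), ∃ B' : Finset V, u ∈ B' ∧
        (gIn ω (B' : Set V)).Reachable u v := by
      intro u v p
      induction p with
      | @nil u => exact ⟨{u}, by simp, SimpleGraph.Reachable.refl _⟩
      | @cons u w v h p ih =>
        obtain ⟨B', hw, hr⟩ := ih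
        refine ⟨insert u B', by simp, ?_⟩
        have hadj : (gIn ω ((insert u B' : Finset V) : Set V)).Adj u w :=
          ⟨h.1, h.2.1, by simp, by simp [hw]⟩
        exact hadj.reachable.trans (hr.mono (gIn_mono le_rfl (by simp)))
    obtain ⟨B', hx', hr⟩ := key x a p
    refine ⟨B ∪ B', by simp [hxB], ?_⟩
    intro y hy
    simp only [Finset.coe_insert, Set.mem_insert_iff] at hy
    rcases hy with rfl | hy
    · exact hr.mono (gIn_mono le_rfl (by simp))
    · exact (hB hy).mono (gIn_mono le_rfl (by simp))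

lemma big_univ_eq (x : V) (M : ℕ) :
    big Set.univ x M = ⋃ B : Finset V, big (B : Set V) x M := by
  classical
  apply Set.Subset.antisymm
  · intro ω hω
    obtain ⟨T, hT, hc⟩ := Set.exists_subset_encard_eq (show (M : ℕ∞) ≤ (clu ω Set.univ x).encard from hω)
    have hfin : T.Finite := Set.finite_of_encard_eq_coe hc
    obtain ⟨B, -, hB⟩ := exists_finset_clu ω x hfin.toFinset (by simpa using hT)
    refine Set.mem_iUnion.mpr ⟨B, ?_⟩
    show (M : ℕ∞) ≤ _
    rw [← hc]
    apply Set.encard_le_encard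
    simpa using hB
  · intro ω hω
    obtain ⟨B, hB⟩ := Set.mem_iUnion.mp hω
    exact big_mono (Set.subset_univ _) x M hB

lemma measurableSet_big_univ [Countable V] (x : V) (M : ℕ) :
    MeasurableSet (big (Set.univ : Set V) x M) := by
  rw [big_univ_eq]
  exact MeasurableSet.iUnion fun B => measurableSet_big_finset B x M

lemma exists_finset_big [Countable V] (w : Sym2 V → ℝ≥0) (x : V) (M : ℕ) {θ : ℝ≥0∞}
    (h : θ < P w (big Set.univ x M)) : ∃ B : Finset V, x ∈ B ∧ θ < P w (big (B : Set V) x M) := by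
  classical
  rw [big_univ_eq, Directed.measure_iUnion] at h
  · obtain ⟨B, hB⟩ := lt_iSup_iff.mp h
    exact ⟨insert x B, by simp, lt_of_lt_of_le hB (measure_mono (big_mono (by simp) x M))⟩
  · intro B B'
    exact ⟨B ∪ B', big_mono (by simp) x M, big_mono (by simp) x M⟩

end graph

end Pool.Agent.V11321.LRP
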