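import Mathlib
import Pool.Agent.V11321.LRP.Graph

set_option autoImplicit false

open MeasureTheory ProbabilityTheory
open scoped ENNReal NNReal

namespace Pool.Agent.V11321.LRP

section aux

variable {E : Type*}

lemma lintegral_mul_prod_of_dependsOn {ι : Type*} [DecidableEq ι] [DecidableEq E] (w : E → ℝ≥0)
    (F0 : (E → ℕ) → ℝ≥0∞)
    (I0 : Finset E) (T : Finset ι) (g : ι → (E → ℕ) → ℝ≥0∞) (I : ι → Finset E)
    (hF0 : DependsOn F0 (I0 : Set E)) (hg : ∀ s ∈ T, DependsOn (g s) (I s : Set E))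
    (h0 : ∀ s ∈ T, Disjoint I0 (I s)) (hd : (T : Set ι).PairwiseDisjoint I) :
    ∫⁻ ω, F0 ω * ∏ s ∈ T, g s ω ∂(P w) = (∫⁻ ω, F0 ω ∂(P w)) * ∏ s ∈ T, ∫⁻ ω, g s ω ∂(P w) := by
  induction T using Finset.induction_on with
  | empty => simp
  | insert a T ha ih =>
    have e1 : ∀ ω, F0 ω * ∏ s ∈ insert a T, g s ω = (F0 ω * ∏ s ∈ T, g s ω) * g a ω := by
      intro ω
      rw [Finset.prod_insert ha]
      ring
    simp_rw [e1]
    rw [lintegral_mul_of_dependsOn w (I0 ∪ T.biUnion I) (I a), ih, Finset.prod_insert ha]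
    · ring
    · exact fun s hs => hg s (Finset.mem_insert_of_mem hs)
    · exact fun s hs => h0 s (Finset.mem_insert_of_mem hs)
    · exact hd.subset (by simp)
    · rw [Finset.disjoint_union_left]
      refine ⟨h0 a (Finset.mem_insert_self _ _), ?_⟩
      rw [Finset.disjoint_biUnion_left]
      intro s hs
      refine hd (by simp [hs]) (by simp) ?_
      rintro rfl
      exact ha hs
    · intro ω ω' h
      have hF : F0 ω = F0 ω' := hF0 (fun e he => h e (by simp at he ⊢; left; exact he))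
      have hG : ∏ s ∈ T, g s ω = ∏ s ∈ T, g s ω' := by
        refine Finset.prod_congr rfl fun s hs => ?_
        refine hg s (Finset.mem_insert_of_mem hs) (fun e he => h e ?_)
        simp at he ⊢
        right
        exact ⟨s, hs, he⟩
      show F0 ω * _ = F0 ω' * _
      rw [hF, hG]
    · exact hg a (Finset.mem_insert_self _ _)

lemma disjoint_sym2 {V : Type*} {B B' : Finset V} (h : Disjoint B B') :
    Disjoint B.sym2 B'.sym2 := by
  rw [Finset.disjoint_left]
  intro e he he'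
  induction e using Sym2.ind with
  | _ x y =>
    rw [Finset.mk_mem_sym2_iff] at he he'
    exact Finset.disjoint_left.mp h he.1 he'.1

lemma prod_le_avg {ι : Type*} (D : Finset ι) (hD : 0 < D.card) (a : ι → ℝ≥0) :
    ∏ x ∈ D, a x ≤ (D.card : ℝ≥0)⁻¹ * ∑ x ∈ D, a x ^ D.card := by
  have h := NNReal.geom_mean_le_arith_mean_weighted D (fun _ => (D.card : ℝ≥0)⁻¹)
    (fun x => a x ^ D.card) (by
      rw [Finset.sum_const, nsmul_eq_mul]
      exact mul_inv_cancel₀ (by positivity))
  calc ∏ x ∈ D, a x = ∏ x ∈ D, (a x ^ D.card) ^ (((D.card : ℝ≥0)⁻¹ : ℝ≥0) : ℝ) := by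
        refine Finset.prod_congr rfl fun x _ => ?_
        rw [NNReal.coe_inv, NNReal.coe_natCast, NNReal.pow_rpow_inv_natCast _ hD.ne']
    _ ≤ _ := h
    _ = _ := by rw [Finset.mul_sum]

end aux

section group

variable {Γ : Type*} [Group Γ]

/-- The translation-invariant weight defined by `f`. -/
noncomputable def W (f : Γ → ℝ≥0) : Sym2 Γ → ℝ≥0 :=
  Sym2.lift ⟨fun x y => (f (x⁻¹ * y) + f (y⁻¹ * x)) / 2, fun x y => by
    show _ / 2 = _ / 2
    rw [add_comm]⟩

lemma W_mk (f : Γ → ℝ≥0) (x y : Γ) : W f s(x, y) = (f (x⁻¹ * y) + f (y⁻¹ * x)) / 2 := rfl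

lemma W_add (f g : Γ → ℝ≥0) : W (fun x => f x + g x) = fun e => W f e + W g e := by
  funext e
  induction e using Sym2.ind with
  | _ x y => simp only [W_mk]; rw [← add_div]; congr 1; ring

lemma W_mono {f g : Γ → ℝ≥0} (h : f ≤ g) : W f ≤ W g := by
  intro e
  induction e using Sym2.ind with
  | _ x y =>
    simp only [W_mk]
    have h1 := h (x⁻¹ * y)
    have h2 := h (y⁻¹ * x)
    gcongr

lemma W_map (f : Γ → ℝ≥0) (g : Γ) (e : Sym2 Γ) : W f (Sym2.map (g * ·) e) = W f e := by
  induction e using Sym2.ind with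
  | _ x y => simp [W_mk, mul_assoc]

lemma P_W_map (f : Γ → ℝ≥0) (g : Γ) :
    (P (W f)).map (fun ω e => ω (Sym2.map (g * ·) e)) = P (W f) := by
  unfold P
  have hinj : Function.Injective (Sym2.map (g * ·) : Sym2 Γ → Sym2 Γ) :=
    Sym2.map.injective (mul_right_injective g)
  rw [Measure.map_infinitePi_infinitePi_of_inj hinj]
  congr 1
  funext e
  rw [W_map]

open scoped Classical in
/-- The translate `g B`. -/
noncomputable def tr (g : Γ) (B : Finset Γ) : Finset Γ := B.image (g * ·)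

open scoped Classical in
lemma mem_tr {g : Γ} {B : Finset Γ} {x : Γ} : x ∈ tr g B ↔ g⁻¹ * x ∈ B := by
  unfold tr
  rw [Finset.mem_image]
  constructor
  · rintro ⟨a, ha, rfl⟩
    simpa using ha
  · intro h
    exact ⟨_, h, by simp⟩

lemma gIn_map_iff (ω : Sym2 Γ → ℕ) (g : Γ) (B : Finset Γ) (x y : Γ) :
    (gIn (fun e => ω (Sym2.map (g * ·) e)) (B : Set Γ)).Adj x y ↔
      (gIn ω (tr g B : Set Γ)).Adj (g * x) (g * y) := by
  simp [gIn, mem_tr]

lemma clu_map (ω : Sym2 Γ → ℕ) (g : Γ) (B : Finset Γ) (x : Γ) :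
    clu ω (tr g B : Set Γ) (g * x) =
      (g * ·) '' clu (fun e => ω (Sym2.map (g * ·) e)) (B : Set Γ) x := by
  let φ : gIn (fun e => ω (Sym2.map (g * ·) e)) (B : Set Γ) ≃g gIn ω (tr g B : Set Γ) :=
    { toEquiv := Equiv.mulLeft g
      map_rel_iff' := by
        intro a b
        exact (gIn_map_iff ω g B a b).symm }
  have hφ : ∀ z, φ z = g * z := fun z => rfl
  ext y
  simp only [clu, Set.mem_image, Set.mem_ofPred_eq]
  constructor
  · intro h
    refine ⟨g⁻¹ * y, ?_, by simp⟩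
    have h' : (gIn ω (tr g B : Set Γ)).Reachable (φ x) (φ (g⁻¹ * y)) := by
      rw [hφ, hφ]
      simpa using h
    exact φ.reachable_iff.mp h'
  · rintro ⟨z, hz, rfl⟩
    have := φ.reachable_iff.mpr hz
    rwa [hφ, hφ] at this

lemma P_big_tr (f : Γ → ℝ≥0) (g : Γ) (B : Finset Γ) (x : Γ) (M : ℕ) :
    P (W f) (big (tr g B : Set Γ) (g * x) M) = P (W f) (big (B : Set Γ) x M) := by
  conv_rhs => rw [← P_W_map f g]
  rw [Measure.map_apply (by fun_prop) (measurableSet_big_finset B x M)]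
  congr 1
  ext ω
  simp only [big, Set.mem_preimage, Set.mem_ofPred_eq]
  rw [clu_map, Set.InjOn.encard_image]
  exact (mul_right_injective g).injOn

lemma exists_T [Infinite Γ] (F0 Q : Finset Γ) (m : ℕ) :
    ∃ T : Finset Γ, T.card = m ∧ (∀ s ∈ T, s ∉ F0) ∧
      ∀ s ∈ T, ∀ s' ∈ T, s ≠ s' → s⁻¹ * s' ∉ Q := by
  classical
  induction m with
  | zero => exact ⟨∅, by simp⟩
  | succ m ih =>
    obtain ⟨T, hc, h1, h2⟩ := ih
    obtain ⟨t, ht⟩ := Infinite.exists_notMem_finset
      (F0 ∪ T ∪ T.biUnion (fun s => Q.image (fun q => s * q)) ∪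
        T.biUnion (fun s => Q.image (fun q => s * q⁻¹)))
    simp only [Finset.mem_union, Finset.mem_biUnion, Finset.mem_image, not_or, not_exists,
      not_and] at ht
    obtain ⟨⟨⟨ha, hb⟩, hc1⟩, hd⟩ := ht
    refine ⟨insert t T, by rw [Finset.card_insert_of_notMem hb, hc], ?_, ?_⟩
    · intro s hs
      rcases Finset.mem_insert.mp hs with rfl | hs
      · exact ha
      · exact h1 s hs
    · intro s hs s' hs' hne hq
      rcases Finset.mem_insert.mp hs with rfl | hs
      · rcases Finset.mem_insert.mp hs' with rfl | hs'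
        · exact hne rfl
        · exact hd s' hs' _ hq (by group)
      · rcases Finset.mem_insert.mp hs' with h' | hs'
        · subst h'
          exact hc1 s (by assumption) _ hq (by group)
        · exact h2 s (by assumption) s' hs' hne hq

end group

end Pool.Agent.V11321.LRP
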