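import Mathlib
import Pool.Agent.V11321.LRP.Step

set_option autoImplicit false
set_option linter.unusedSectionVars false

open MeasureTheory ProbabilityTheory
open scoped ENNReal NNReal

namespace Pool.Agent.V11321.LRP

variable {Γ : Type*} [Group Γ]

open scoped Classical in
/-- The cluster of `1` inside `B`, as a finite set. -/
noncomputable def cluF (B : Finset Γ) (ω : Sym2 Γ → ℕ) : Finset Γ :=
  B.filter (· ∈ clu ω (B : Set Γ) 1)

open scoped Classical in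
/-- A choice of `M` elements of a finite set. -/
noncomputable def sel (M : ℕ) (S : Finset Γ) : Finset Γ :=
  if h : M ≤ S.card then (Finset.exists_subset_card_eq h).choose else ∅

lemma sel_subset (M : ℕ) (S : Finset Γ) : sel M S ⊆ S := by
  unfold sel
  split_ifs with h
  · exact (Finset.exists_subset_card_eq h).choose_spec.1
  · simp

lemma sel_card {M : ℕ} {S : Finset Γ} (h : M ≤ S.card) : (sel M S).card = M := by
  unfold sel
  rw [dif_pos h]
  exact (Finset.exists_subset_card_eq h).choose_spec.2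

lemma sel_empty {M : ℕ} {S : Finset Γ} (h : ¬ M ≤ S.card) : sel M S = ∅ := by
  unfold sel
  rw [dif_neg h]

lemma coe_cluF {B : Finset Γ} (h1 : (1 : Γ) ∈ B) (ω : Sym2 Γ → ℕ) :
    (cluF B ω : Set Γ) = clu ω (B : Set Γ) 1 := by
  ext y
  simp only [cluF, Finset.coe_filter, Set.mem_ofPred_eq]
  constructor
  · exact fun h => h.2
  · intro h
    exact ⟨clu_subset (by simpa using h1) h, h⟩

lemma mem_big_iff {B : Finset Γ} (h1 : (1 : Γ) ∈ B) (ω : Sym2 Γ → ℕ) (M : ℕ) :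
    ω ∈ big (B : Set Γ) 1 M ↔ M ≤ (cluF B ω).card := by
  show (M : ℕ∞) ≤ (clu ω (B : Set Γ) 1).encard ↔ _
  rw [← coe_cluF h1, Set.encard_coe_eq_coe_finsetCard]
  exact Nat.cast_le

open scoped Classical in
/-- Symmetric weights concentrated on `T ∪ T⁻¹`. -/
noncomputable def nuf (T : Finset Γ) (u : ℝ≥0) : Γ → ℝ≥0 :=
  fun g => u * ((if g ∈ T then 1 else 0) + (if g⁻¹ ∈ T then 1 else 0))

lemma nuf_inv (T : Finset Γ) (u : ℝ≥0) (g : Γ) : nuf T u g⁻¹ = nuf T u g := by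
  unfold nuf
  rw [inv_inv, add_comm]

lemma le_nuf {T : Finset Γ} {u : ℝ≥0} {g : Γ} (h : g ∈ T) : u ≤ nuf T u g := by
  unfold nuf
  rw [if_pos h]
  exact le_mul_of_one_le_right zero_le (by simp)

lemma le_W_nuf {T : Finset Γ} {u : ℝ≥0} {x s : Γ} (h : s ∈ T) : u ≤ W (nuf T u) s(x, x * s) := by
  rw [W_mk]
  have e1 : x⁻¹ * (x * s) = s := by group
  have e2 : (x * s)⁻¹ * x = s⁻¹ := by group
  rw [e1, e2, nuf_inv, ← two_mul, mul_div_cancel_left₀ _ (two_ne_zero)]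
  exact le_nuf h

open scoped Classical in
/-- the factor attached to `x, s`. -/
noncomputable def yv (B : Finset Γ) (M : ℕ) (a : ℝ≥0) (z : Γ) (ω : Sym2 Γ → ℕ) : ℝ≥0 :=
  if ω ∈ big (tr z B : Set Γ) z M then a else 1

/-- Existence of one good edge doubles the cluster. -/
lemma double {B : Finset Γ} (h1 : (1 : Γ) ∈ B) {M : ℕ} {ω₁ ω₂ : Sym2 Γ → ℕ}
    {x s : Γ} (hx : x ∈ cluF B ω₁) (hL : ω₁ ∈ big (B : Set Γ) 1 M)
    (hJ : ω₁ ∈ big (tr (x * s) B : Set Γ) (x * s) M) (hd : Disjoint B (tr (x * s) B))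
    (h2 : ω₂ s(x, x * s) ≠ 0) : (fun e => ω₁ e + ω₂ e) ∈ big (Set.univ : Set Γ) 1 (2 * M) := by
  have hx' : x ∈ clu ω₁ (B : Set Γ) 1 := by
    rw [← coe_cluF h1]; exact hx
  have hxs : x * s ∈ tr (x * s) B := by
    rw [mem_tr]; simpa using h1
  have hxB : x ∈ B := clu_subset (by simpa using h1) hx'
  have hle : ω₁ ≤ fun e => ω₁ e + ω₂ e := fun e => Nat.le_add_right _ _
  have hne : x ≠ x * s := by
    intro h
    exact Finset.disjoint_left.mp hd hxB (h ▸ hxs)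
  have s1 : clu ω₁ (B : Set Γ) 1 ⊆ clu (fun e => ω₁ e + ω₂ e) Set.univ 1 :=
    clu_mono hle (Set.subset_univ _) 1
  have hedge : (gIn (fun e => ω₁ e + ω₂ e) Set.univ).Adj x (x * s) :=
    ⟨hne, by simp only; omega, trivial, trivial⟩
  have s2 : clu ω₁ (tr (x * s) B : Set Γ) (x * s) ⊆ clu (fun e => ω₁ e + ω₂ e) Set.univ 1 := by
    intro y hy
    have a1 : (gIn (fun e => ω₁ e + ω₂ e) Set.univ).Reachable 1 x := s1 hx'
    have a2 : (gIn (fun e => ω₁ e + ω₂ e) Set.univ).Reachable (x * s) y :=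
      clu_mono hle (Set.subset_univ _) (x * s) hy
    exact (a1.trans hedge.reachable).trans a2
  have hdis : Disjoint (clu ω₁ (B : Set Γ) 1) (clu ω₁ (tr (x * s) B : Set Γ) (x * s)) := by
    refine Set.disjoint_of_subset (clu_subset (by simpa using h1)) (clu_subset (by simpa using hxs)) ?_
    exact_mod_cast hd
  show ((2 * M : ℕ) : ℕ∞) ≤ _
  calc ((2 * M : ℕ) : ℕ∞) = M + M := by push_cast; ring
    _ ≤ (clu ω₁ (B : Set Γ) 1).encard + (clu ω₁ (tr (x * s) B : Set Γ) (x * s)).encard :=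
        add_le_add hL hJ
    _ = (clu ω₁ (B : Set Γ) 1 ∪ clu ω₁ (tr (x * s) B : Set Γ) (x * s)).encard :=
        (Set.encard_union_eq hdis).symm
    _ ≤ _ := Set.encard_le_encard (Set.union_subset s1 s2)

/-- The conditional probability that no good edge is present. -/
lemma no_good {B : Finset Γ} (h1 : (1 : Γ) ∈ B) {M : ℕ} (T : Finset Γ) (u : ℝ≥0)
    (hd : ∀ x ∈ B, ∀ s ∈ T, Disjoint B (tr (x * s) B)) {ω₁ : Sym2 Γ → ℕ}
    (hL : ω₁ ∈ big (B : Set Γ) 1 M) {a : ℝ≥0} (ha : (a : ℝ) = Real.exp (-(u : ℝ))) :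
    P (W (nuf T u)) {ω₂ | (fun e => ω₁ e + ω₂ e) ∉ big (Set.univ : Set Γ) 1 (2 * M)} ≤
      ((∏ x ∈ sel M (cluF B ω₁), ∏ s ∈ T, yv B M a (x * s) ω₁ : ℝ≥0) : ℝ≥0∞) := by
  classical
  set D := sel M (cluF B ω₁) with hD
  have hDB : ∀ x ∈ D, x ∈ B := fun x hx => (Finset.mem_filter.mp (sel_subset _ _ hx)).1
  set K := (D ×ˢ T).filter (fun p => ω₁ ∈ big (tr (p.1 * p.2) B : Set Γ) (p.1 * p.2) M) with hK
  set F := K.image (fun p => s(p.1, p.1 * p.2)) with hF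
  have hinj : Set.InjOn (fun p : Γ × Γ => s(p.1, p.1 * p.2)) (K : Set (Γ × Γ)) := by
    rintro ⟨x, s⟩ hp ⟨x', s'⟩ hp' h
    simp only [hK, Finset.coe_filter, Finset.mem_product, Set.mem_ofPred_eq] at hp hp'
    simp only [Sym2.eq, Sym2.rel_iff', Prod.mk.injEq, Prod.swap_prod_mk] at h
    rcases h with ⟨rfl, h⟩ | ⟨h, h'⟩
    · rw [mul_right_inj] at h
      rw [h]
    · exfalso
      have hx := hDB x hp.1.1
      have hdd := hd x' (hDB x' hp'.1.1) s' hp'.1.2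
      rw [← h] at hdd
      exact Finset.disjoint_left.mp hdd hx (by rw [mem_tr]; simpa using h1)
  have hsub : {ω₂ : Sym2 Γ → ℕ | (fun e => ω₁ e + ω₂ e) ∉ big (Set.univ : Set Γ) 1 (2 * M)} ⊆
      {ω₂ | ∀ e ∈ F, ω₂ e = 0} := by
    intro ω₂ h e he
    by_contra hne
    obtain ⟨⟨x, s⟩, hp, rfl⟩ := Finset.mem_image.mp he
    simp only [hK, Finset.mem_filter, Finset.mem_product] at hp
    exact h (double h1 (sel_subset _ _ hp.1.1) hL hp.2 (hd x (hDB x hp.1.1) s hp.1.2) hne)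
  calc P (W (nuf T u)) _ ≤ P (W (nuf T u)) {ω₂ | ∀ e ∈ F, ω₂ e = 0} := measure_mono hsub
    _ = ∏ e ∈ F, ENNReal.ofReal (Real.exp (-(W (nuf T u) e : ℝ))) := P_zero_set _ _
    _ = ∏ p ∈ K, ENNReal.ofReal (Real.exp (-(W (nuf T u) s(p.1, p.1 * p.2) : ℝ))) :=
        Finset.prod_image hinj
    _ ≤ ∏ p ∈ K, (a : ℝ≥0∞) := by
        refine Finset.prod_le_prod' fun p hp => ?_
        simp only [hK, Finset.mem_filter, Finset.mem_product] at hp
        rw [← ENNReal.ofReal_coe_nnreal, ha]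
        refine ENNReal.ofReal_le_ofReal (Real.exp_le_exp.mpr ?_)
        have := le_W_nuf (T := T) (u := u) (x := p.1) hp.1.2
        have : (u : ℝ) ≤ W (nuf T u) s(p.1, p.1 * p.2) := by exact_mod_cast this
        linarith
    _ = _ := by
        rw [hK, Finset.prod_filter, Finset.prod_product]
        push_cast
        refine Finset.prod_congr rfl fun x _ => Finset.prod_congr rfl fun s _ => ?_
        unfold yv
        split_ifs <;> simp

lemma sel_dependsOn (B : Finset Γ) (M : ℕ) (x : Γ) :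
    DependsOn (fun ω : Sym2 Γ → ℕ => x ∈ sel M (cluF B ω)) (B.sym2 : Set (Sym2 Γ)) := by
  intro ω ω' h
  have : cluF B ω = cluF B ω' := by
    unfold cluF
    have := clu_dependsOn B 1 h
    simp only at this
    rw [this]
  simp only [this]

open scoped Classical in
/-- The main estimate of the multi-scale step. -/
lemma step_main [Countable Γ] (f : Γ → ℝ≥0) {B : Finset Γ} (h1 : (1 : Γ) ∈ B) {M : ℕ} (hM : 0 < M)
    (T : Finset Γ)
    (u : ℝ≥0) (hd : ∀ x ∈ B, ∀ s ∈ T, Disjoint B (tr (x * s) B))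
    (hd' : ∀ x, ∀ s ∈ T, ∀ s' ∈ T, s ≠ s' → Disjoint (tr (x * s) B) (tr (x * s') B))
    {a : ℝ≥0} (ha : (a : ℝ) = Real.exp (-(u : ℝ))) :
    P (W f) (big (B : Set Γ) 1 M) ≤ P (W (fun x => f x + nuf T u x)) (big (Set.univ : Set Γ) 1 (2 * M)) +
      P (W f) (big (B : Set Γ) 1 M) *
        (∫⁻ ω, ((yv B M a 1 ω : ℝ≥0∞)) ^ M ∂(P (W f))) ^ T.card := by
  set L := big (B : Set Γ) 1 M with hLdef
  have hLm : MeasurableSet L := measurableSet_big_finset B 1 M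
  set A := big (Set.univ : Set Γ) 1 (2 * M) with hA
  have hAm : MeasurableSet A := measurableSet_big_univ 1 (2 * M)
  set Q := P (W f) with hQ
  set R := P (W (nuf T u)) with hR
  -- the constant factor
  have hyd : ∀ z : Γ, DependsOn (fun ω : Sym2 Γ → ℕ => ((yv B M a z ω : ℝ≥0∞)) ^ M)
      ((tr z B).sym2 : Set (Sym2 Γ)) := by
    intro z ω ω' h
    have := big_dependsOn (tr z B) z M h
    simp only [eq_iff_iff] at this
    simp only [yv]
    rw [if_congr this rfl rfl]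
  have hconst : ∀ z : Γ, ∫⁻ ω, ((yv B M a z ω : ℝ≥0∞)) ^ M ∂Q = ∫⁻ ω, ((yv B M a 1 ω : ℝ≥0∞)) ^ M ∂Q := by
    intro z
    have key : ∀ z : Γ, ∫⁻ ω, ((yv B M a z ω : ℝ≥0∞)) ^ M ∂Q =
        (a : ℝ≥0∞) ^ M * Q (big (tr z B : Set Γ) z M) + Q (big (tr z B : Set Γ) z M)ᶜ := by
      intro z
      have hm : MeasurableSet (big (tr z B : Set Γ) z M) := measurableSet_big_finset _ z M
      have e : ∀ ω : Sym2 Γ → ℕ, ((yv B M a z ω : ℝ≥0∞)) ^ M =
          (big (tr z B : Set Γ) z M).indicator (fun _ => (a : ℝ≥0∞) ^ M) ω +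
          (big (tr z B : Set Γ) z M)ᶜ.indicator (fun _ => 1) ω := by
        intro ω
        by_cases h : ω ∈ big (tr z B : Set Γ) z M
        · simp [yv, h]
        · simp [yv, h]
      simp_rw [e]
      rw [lintegral_add_left (measurable_const.indicator hm), lintegral_indicator hm,
        lintegral_indicator hm.compl]
      simp
    have e1 : Q (big (tr z B : Set Γ) z M) = Q (big (tr 1 B : Set Γ) 1 M) := by
      have a1 := P_big_tr f z B 1 M
      have a2 := P_big_tr f 1 B 1 M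
      rw [mul_one] at a1 a2
      rw [hQ, a1, a2]
    rw [key z, key 1, measure_compl (measurableSet_big_finset _ z M) (measure_ne_top _ _),
      measure_compl (measurableSet_big_finset _ 1 M) (measure_ne_top _ _), e1]
  set c := ∫⁻ ω, ((yv B M a 1 ω : ℝ≥0∞)) ^ M ∂Q with hc
  -- the good event
  have hPA : P (W (fun x => f x + nuf T u x)) A = ∫⁻ ω₁, R {ω₂ | (fun e => ω₁ e + ω₂ e) ∈ A} ∂Q := by
    rw [W_add, ← P_add, Measure.map_apply (by fun_prop) hAm, Measure.prod_apply]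
    · rfl
    · exact measurableSet_preimage (by fun_prop) hAm
  have hsplit : ∀ ω₁ ∈ L, (1 : ℝ≥0∞) ≤ R {ω₂ | (fun e => ω₁ e + ω₂ e) ∈ A} +
      ((∏ x ∈ sel M (cluF B ω₁), ∏ s ∈ T, yv B M a (x * s) ω₁ : ℝ≥0) : ℝ≥0∞) := by
    intro ω₁ hω
    have hset : {ω₂ : Sym2 Γ → ℕ | (fun e => ω₁ e + ω₂ e) ∉ A} = {ω₂ | (fun e => ω₁ e + ω₂ e) ∈ A}ᶜ := rfl
    have hms : MeasurableSet {ω₂ : Sym2 Γ → ℕ | (fun e => ω₁ e + ω₂ e) ∈ A} :=
      measurableSet_preimage (by fun_prop) hAm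
    have h3 := no_good h1 T u hd hω ha
    rw [← hA, ← hR, hset] at h3
    calc (1 : ℝ≥0∞) = R Set.univ := measure_univ.symm
      _ = R {ω₂ | (fun e => ω₁ e + ω₂ e) ∈ A} + R {ω₂ | (fun e => ω₁ e + ω₂ e) ∈ A}ᶜ :=
          (measure_add_measure_compl hms).symm
      _ ≤ _ := add_le_add le_rfl h3
  -- Am-gm
  have hamgm : ∀ ω₁ ∈ L, ((∏ x ∈ sel M (cluF B ω₁), ∏ s ∈ T, yv B M a (x * s) ω₁ : ℝ≥0) : ℝ≥0∞) ≤
      (M : ℝ≥0∞)⁻¹ * ∑ x ∈ B, (if x ∈ sel M (cluF B ω₁) then 1 else 0) *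
        ∏ s ∈ T, ((yv B M a (x * s) ω₁ : ℝ≥0∞)) ^ M := by
    intro ω₁ hω
    have hcard : (sel M (cluF B ω₁)).card = M := sel_card ((mem_big_iff h1 ω₁ M).mp hω)
    have h2 := prod_le_avg (sel M (cluF B ω₁)) (by rw [hcard]; exact hM)
      (fun x => ∏ s ∈ T, yv B M a (x * s) ω₁)
    rw [hcard] at h2
    have h3 : ((∏ x ∈ sel M (cluF B ω₁), ∏ s ∈ T, yv B M a (x * s) ω₁ : ℝ≥0) : ℝ≥0∞) ≤
      (((M : ℝ≥0)⁻¹ * ∑ x ∈ sel M (cluF B ω₁), (∏ s ∈ T, yv B M a (x * s) ω₁) ^ M : ℝ≥0) : ℝ≥0∞) := by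
      exact_mod_cast h2
    refine h3.trans (le_of_eq ?_)
    rw [ENNReal.coe_mul, ENNReal.coe_inv (by positivity)]
    push_cast
    congr 1
    have hsub : sel M (cluF B ω₁) ⊆ B := fun x hx => (Finset.mem_filter.mp (sel_subset _ _ hx)).1
    simp_rw [ite_mul, one_mul, zero_mul]
    rw [← Finset.sum_filter, Finset.filter_mem_eq_inter, Finset.inter_eq_right.mpr hsub]
    refine Finset.sum_congr rfl fun x _ => ?_
    rw [Finset.prod_pow]
  -- independence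
  have hind : ∀ x ∈ B, ∫⁻ ω₁, (if x ∈ sel M (cluF B ω₁) then 1 else 0) *
        ∏ s ∈ T, ((yv B M a (x * s) ω₁ : ℝ≥0∞)) ^ M ∂Q =
      (∫⁻ ω₁, (if x ∈ sel M (cluF B ω₁) then 1 else 0) ∂Q) * c ^ T.card := by
    intro x hx
    rw [lintegral_mul_prod_of_dependsOn (W f) (fun ω₁ => if x ∈ sel M (cluF B ω₁) then 1 else 0) B.sym2
      T (fun s ω₁ => ((yv B M a (x * s) ω₁ : ℝ≥0∞)) ^ M) (fun s => (tr (x * s) B).sym2)]
    · congr 1
      rw [Finset.prod_congr rfl (fun s _ => hconst (x * s)), Finset.prod_const]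
    · intro ω ω' h
      have := sel_dependsOn B M x h
      simp only [eq_iff_iff] at this
      simp only
      rw [if_congr this rfl rfl]
    · exact fun s _ => hyd (x * s)
    · exact fun s hs => disjoint_sym2 (hd x hx s hs)
    · intro s hs s' hs' hne
      exact disjoint_sym2 (hd' x s hs s' hs' hne)
  have hmeas1 : ∀ x : Γ, Measurable (fun ω₁ : Sym2 Γ → ℕ =>
      (if x ∈ sel M (cluF B ω₁) then (1 : ℝ≥0∞) else 0)) := by
    intro x
    refine measurable_of_dependsOn B.sym2 _ ?_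
    intro ω ω' h
    have := sel_dependsOn B M x h
    simp only [eq_iff_iff] at this
    simp only
    rw [if_congr this rfl rfl]
  have hmeas2 : ∀ x : Γ, Measurable (fun ω₁ : Sym2 Γ → ℕ =>
      ∏ s ∈ T, ((yv B M a (x * s) ω₁ : ℝ≥0∞)) ^ M) := by
    intro x
    exact Finset.measurable_prod T (fun s _ => measurable_of_dependsOn _ _ (hyd (x * s)))
  have hmeas3 : ∀ x : Γ, Measurable (fun ω₁ : Sym2 Γ → ℕ =>
      (if x ∈ sel M (cluF B ω₁) then (1 : ℝ≥0∞) else 0) * ∏ s ∈ T, ((yv B M a (x * s) ω₁ : ℝ≥0∞)) ^ M) :=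
    fun x => (hmeas1 x).mul (hmeas2 x)
  have hsum : ∑ x ∈ B, ∫⁻ ω₁, (if x ∈ sel M (cluF B ω₁) then (1 : ℝ≥0∞) else 0) ∂Q = M * Q L := by
    rw [← lintegral_finsetSum _ (fun x _ => hmeas1 x)]
    have e : ∀ ω₁ : Sym2 Γ → ℕ, ∑ x ∈ B, (if x ∈ sel M (cluF B ω₁) then (1 : ℝ≥0∞) else 0) =
        L.indicator (fun _ => (M : ℝ≥0∞)) ω₁ := by
      intro ω₁
      have hsub : sel M (cluF B ω₁) ⊆ B := fun x hx => (Finset.mem_filter.mp (sel_subset _ _ hx)).1
      rw [← Finset.sum_filter, Finset.filter_mem_eq_inter, Finset.inter_eq_right.mpr hsub]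
      by_cases hω : ω₁ ∈ L
      · rw [Set.indicator_of_mem hω, Finset.sum_const,
          sel_card ((mem_big_iff h1 ω₁ M).mp hω)]
        simp
      · rw [Set.indicator_of_notMem hω, sel_empty (fun h => hω ((mem_big_iff h1 ω₁ M).mpr h))]
        simp
    simp_rw [e]
    rw [lintegral_indicator hLm]
    simp
  calc Q L = ∫⁻ ω₁ in L, 1 ∂Q := by simp
    _ ≤ ∫⁻ ω₁ in L, (R {ω₂ | (fun e => ω₁ e + ω₂ e) ∈ A} + (M : ℝ≥0∞)⁻¹ * ∑ x ∈ B,
        (if x ∈ sel M (cluF B ω₁) then 1 else 0) * ∏ s ∈ T, ((yv B M a (x * s) ω₁ : ℝ≥0∞)) ^ M) ∂Q := by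
        refine setLIntegral_mono' hLm fun ω₁ hω => ?_
        exact (hsplit ω₁ hω).trans (add_le_add le_rfl (hamgm ω₁ hω))
    _ ≤ ∫⁻ ω₁, (R {ω₂ | (fun e => ω₁ e + ω₂ e) ∈ A} + (M : ℝ≥0∞)⁻¹ * ∑ x ∈ B,
        (if x ∈ sel M (cluF B ω₁) then 1 else 0) * ∏ s ∈ T, ((yv B M a (x * s) ω₁ : ℝ≥0∞)) ^ M) ∂Q :=
        setLIntegral_le_lintegral _ _
    _ = (∫⁻ ω₁, R {ω₂ | (fun e => ω₁ e + ω₂ e) ∈ A} ∂Q) + (M : ℝ≥0∞)⁻¹ * ∑ x ∈ B,
        ∫⁻ ω₁, (if x ∈ sel M (cluF B ω₁) then 1 else 0) *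
          ∏ s ∈ T, ((yv B M a (x * s) ω₁ : ℝ≥0∞)) ^ M ∂Q := by
        rw [lintegral_add_right _ (by
          refine Measurable.const_mul ?_ _
          exact Finset.measurable_sum B (fun x _ => hmeas3 x))]
        congr 1
        rw [lintegral_const_mul _ (Finset.measurable_sum B (fun x _ => hmeas3 x)),
          lintegral_finsetSum _ (fun x _ => hmeas3 x)]
    _ = _ := by
        rw [← hPA, Finset.sum_congr rfl hind, ← Finset.sum_mul, hsum]
        congr 1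
        rw [← mul_assoc, ← mul_assoc, ENNReal.inv_mul_cancel (by simpa using hM.ne') (by simp), one_mul]

end Pool.Agent.V11321.LRP
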