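import Mathlib
import Pool.Agent.V11321.LRP.Step2

set_option autoImplicit false
set_option linter.unusedSectionVars false

open MeasureTheory ProbabilityTheory
open scoped ENNReal NNReal

namespace Pool.Agent.V11321.LRP

variable {Γ : Type*} [Group Γ]

lemma hasSum_nuf (T : Finset Γ) (u : ℝ≥0) : HasSum (nuf T u) (u * (T.card + T.card)) := by
  classical
  unfold nuf
  refine HasSum.mul_left u (HasSum.add ?_ ?_)
  · have : HasSum (fun g : Γ => if g ∈ T then (1 : ℝ≥0) else 0)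
        (∑ g ∈ T, if g ∈ T then (1 : ℝ≥0) else 0) :=
      hasSum_sum_of_ne_finset_zero (fun b hb => by simp [hb])
    simpa using this
  · have : HasSum (fun g : Γ => if g⁻¹ ∈ T then (1 : ℝ≥0) else 0)
        (∑ b ∈ T.image (fun g => g⁻¹), if b⁻¹ ∈ T then (1 : ℝ≥0) else 0) :=
      hasSum_sum_of_ne_finset_zero (fun b hb => by
        have : b⁻¹ ∉ T := fun h => hb (Finset.mem_image.mpr ⟨_, h, by simp⟩)
        simp [this])
    have h2 : ∑ b ∈ T.image (fun g => g⁻¹), (if b⁻¹ ∈ T then (1 : ℝ≥0) else 0) = T.card := by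
      rw [Finset.sum_image (by intro a _ b _ h; exact inv_injective h)]
      simp
    rwa [h2] at this

lemma const_le [Countable Γ] (f : Γ → ℝ≥0) {B : Finset Γ} {M : ℕ} (u : ℝ≥0) (huM : (u : ℝ) * M ≤ 1)
    {a : ℝ≥0} (ha : (a : ℝ) = Real.exp (-(u : ℝ))) :
    ∫⁻ ω, ((yv B M a 1 ω : ℝ≥0∞)) ^ M ∂(P (W f)) ≤
      ENNReal.ofReal (Real.exp (-((P (W f)).real (big (B : Set Γ) 1 M) * (u * M) / 2))) := by
  classical
  set Q := P (W f) with hQ
  have hm : MeasurableSet (big (tr 1 B : Set Γ) 1 M) := measurableSet_big_finset _ 1 M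
  have key : ∫⁻ ω, ((yv B M a 1 ω : ℝ≥0∞)) ^ M ∂Q =
      (a : ℝ≥0∞) ^ M * Q (big (tr 1 B : Set Γ) 1 M) + Q (big (tr 1 B : Set Γ) 1 M)ᶜ := by
    have e : ∀ ω : Sym2 Γ → ℕ, ((yv B M a 1 ω : ℝ≥0∞)) ^ M =
        (big (tr 1 B : Set Γ) 1 M).indicator (fun _ => (a : ℝ≥0∞) ^ M) ω +
        (big (tr 1 B : Set Γ) 1 M)ᶜ.indicator (fun _ => 1) ω := by
      intro ω
      by_cases h : ω ∈ big (tr 1 B : Set Γ) 1 M
      · simp [yv, h]
      · simp [yv, h]
    simp_rw [e]
    rw [lintegral_add_left (measurable_const.indicator hm), lintegral_indicator hm,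
      lintegral_indicator hm.compl]
    simp
  have e1 : Q (big (tr 1 B : Set Γ) 1 M) = Q (big (B : Set Γ) 1 M) := by
    have a2 := P_big_tr f 1 B 1 M
    rw [mul_one] at a2
    exact a2
  rw [key, measure_compl hm (measure_ne_top _ _), e1, measure_univ]
  set p := Q.real (big (B : Set Γ) 1 M) with hp
  have hp' : Q (big (B : Set Γ) 1 M) = ENNReal.ofReal p := by
    rw [hp, ofReal_measureReal]
  have hp0 : 0 ≤ p := measureReal_nonneg
  have hp1 : p ≤ 1 := measureReal_le_one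
  rw [hp']
  have ea : (a : ℝ≥0∞) ^ M = ENNReal.ofReal (Real.exp (-((u : ℝ) * M))) := by
    rw [← ENNReal.ofReal_coe_nnreal, ha, ← ENNReal.ofReal_pow (Real.exp_nonneg _), ← Real.exp_nat_mul]
    congr 2
    ring
  rw [ea, ← ENNReal.ofReal_mul (Real.exp_nonneg _), ← ENNReal.ofReal_one,
    ← ENNReal.ofReal_sub _ hp0, ← ENNReal.ofReal_add (by positivity) (by linarith)]
  refine ENNReal.ofReal_le_ofReal ?_
  have h1 : Real.exp (-((u : ℝ) * M)) ≤ 1 - (u * M) / 2 := by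
    have hx0 : 0 ≤ (u : ℝ) * M := by positivity
    have hb := Real.exp_bound' (x := (u:ℝ) * M) hx0 huM (n := 1) (by norm_num)
    -- use 1/(1+x) bound
    have h2 : 1 + (u : ℝ) * M ≤ Real.exp ((u : ℝ) * M) := by
      have := Real.add_one_le_exp ((u : ℝ) * M); linarith
    rw [Real.exp_neg]
    calc (Real.exp ((u : ℝ) * M))⁻¹ ≤ (1 + (u : ℝ) * M)⁻¹ := by
          exact inv_anti₀ (by positivity) h2
      _ ≤ 1 - (u * M) / 2 := by
          rw [inv_le_iff_one_le_mul₀ (by positivity)]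
          nlinarith
  have h3 := Real.add_one_le_exp (-(p * (u * M) / 2))
  have h4 : Real.exp (-((u : ℝ) * M)) * p ≤ (1 - (u * M) / 2) * p :=
    mul_le_mul_of_nonneg_right h1 hp0
  nlinarith

lemma step_num [Countable Γ] [Infinite Γ] (f : Γ → ℝ≥0) {θ : ℝ} (hθ : 0 < θ) (κ : ℝ≥0) (hκ : 0 < κ)
    {M : ℕ} (hM : 0 < M) (h : ENNReal.ofReal θ < P (W f) (big (Set.univ : Set Γ) 1 M)) :
    ∃ ν : Γ → ℝ≥0, (∀ g, ν g⁻¹ = ν g) ∧ HasSum ν 1 ∧
      ENNReal.ofReal (θ * (1 - Real.exp (-(θ * (κ * M) / 4)))) <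
        P (W (fun x => f x + κ * ν x)) (big (Set.univ : Set Γ) 1 (2 * M)) := by
  classical
  obtain ⟨B, h1, hB⟩ := exists_finset_big (W f) 1 M h
  obtain ⟨m, hm⟩ := exists_nat_gt (κ * M : ℝ≥0)
  have hm0 : 0 < m := by
    have : (0 : ℝ≥0) < m := lt_of_le_of_lt zero_le hm
    exact_mod_cast this
  obtain ⟨T, hT, hT0, hT1⟩ := exists_T
    (((B ×ˢ B) ×ˢ B).image (fun q : (Γ × Γ) × Γ => q.1.1⁻¹ * q.1.2 * q.2⁻¹))
    ((B ×ˢ B).image (fun q : Γ × Γ => q.1 * q.2⁻¹)) m
  set u : ℝ≥0 := κ / (2 * m) with hu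
  have hm0' : (0 : ℝ≥0) < m := by exact_mod_cast hm0
  refine ⟨nuf T (1 / (2 * m)), nuf_inv T _, ?_, ?_⟩
  · have := hasSum_nuf T (1 / (2 * (m : ℝ≥0)))
    rw [hT] at this
    convert this using 1
    field_simp
    ring
  have hnu : (fun x => f x + κ * nuf T (1 / (2 * m)) x) = fun x => f x + nuf T u x := by
    funext x
    simp only [nuf, hu]
    ring
  rw [hnu]
  have hd : ∀ x ∈ B, ∀ s ∈ T, Disjoint B (tr (x * s) B) := by
    intro x hx s hs
    rw [Finset.disjoint_left]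
    intro y hy hy'
    rw [mem_tr] at hy'
    refine hT0 s hs (Finset.mem_image.mpr ⟨((x, y), (x * s)⁻¹ * y), ?_, ?_⟩)
    · simp only [Finset.mem_product]
      exact ⟨⟨hx, hy⟩, hy'⟩
    · simp only
      group
  have hd' : ∀ x, ∀ s ∈ T, ∀ s' ∈ T, s ≠ s' → Disjoint (tr (x * s) B) (tr (x * s') B) := by
    intro x s hs s' hs' hne
    rw [Finset.disjoint_left]
    intro y hy hy'
    rw [mem_tr] at hy hy'
    refine hT1 s hs s' hs' hne (Finset.mem_image.mpr ⟨((x * s)⁻¹ * y, (x * s')⁻¹ * y), ?_, ?_⟩)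
    · simp only [Finset.mem_product]
      exact ⟨hy, hy'⟩
    · simp only
      group
  set a : ℝ≥0 := ⟨Real.exp (-(u : ℝ)), Real.exp_nonneg _⟩ with ha
  have hmain := step_main f h1 hM T u hd hd' (a := a) rfl
  have huM : (u : ℝ) * M ≤ 1 := by
    have h2 : u * M ≤ 1 := by
      rw [hu, div_mul_eq_mul_div, div_le_one (by positivity)]
      calc κ * M ≤ m := hm.le
        _ ≤ 2 * m := by
          have : (m : ℝ≥0) ≤ m + m := le_add_of_nonneg_right zero_le
          rw [two_mul]; exact this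
    exact_mod_cast h2
  have hc := const_le f (B := B) (M := M) u huM (a := a) rfl
  set Q := P (W f) with hQ
  set p := Q.real (big (B : Set Γ) 1 M) with hp
  have hp' : Q (big (B : Set Γ) 1 M) = ENNReal.ofReal p := by
    rw [hp, ofReal_measureReal]
  set P' := P (W (fun x => f x + nuf T u x)) with hP'
  set p' := P'.real (big (Set.univ : Set Γ) 1 (2 * M)) with hp2
  have hp2' : P' (big (Set.univ : Set Γ) 1 (2 * M)) = ENNReal.ofReal p' := by
    rw [hp2, ofReal_measureReal]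
  rw [hp'] at hmain hB
  rw [hp2'] at hmain ⊢
  have hθp : θ < p := (ENNReal.ofReal_lt_ofReal_iff_of_nonneg hθ.le).mp hB
  have hp0 : 0 < p := hθ.trans hθp
  have hp'0 : 0 ≤ p' := measureReal_nonneg
  have hcard : (∫⁻ ω, ((yv B M a 1 ω : ℝ≥0∞)) ^ M ∂Q) ^ T.card ≤
      ENNReal.ofReal (Real.exp (-(p * (κ * M) / 4))) := by
    calc (∫⁻ ω, ((yv B M a 1 ω : ℝ≥0∞)) ^ M ∂Q) ^ T.card
        ≤ (ENNReal.ofReal (Real.exp (-(p * (u * M) / 2)))) ^ T.card := by gcongr
      _ = _ := by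
          rw [← ENNReal.ofReal_pow (Real.exp_nonneg _), ← Real.exp_nat_mul, hT]
          congr 2
          have : (u : ℝ) = κ / (2 * m) := by rw [hu]; push_cast; ring
          rw [this]
          have : (m : ℝ) ≠ 0 := by exact_mod_cast hm0.ne'
          field_simp
          ring
  have h5 : ENNReal.ofReal p ≤ ENNReal.ofReal (p' + p * Real.exp (-(p * (κ * M) / 4))) := by
    rw [ENNReal.ofReal_add hp'0 (by positivity), ENNReal.ofReal_mul hp0.le]
    exact hmain.trans (add_le_add le_rfl (mul_le_mul_right hcard _))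
  have h6 : p ≤ p' + p * Real.exp (-(p * (κ * M) / 4)) :=
    (ENNReal.ofReal_le_ofReal_iff (by positivity)).mp h5
  have hk0 : (0 : ℝ) < κ * M := by
    have : (0 : ℝ) < κ := by exact_mod_cast hκ
    have : (0 : ℝ) < M := by exact_mod_cast hM
    positivity
  have h7 : Real.exp (-(p * (κ * M) / 4)) ≤ Real.exp (-(θ * (κ * M) / 4)) := by
    refine Real.exp_le_exp.mpr ?_
    nlinarith
  have h8 : Real.exp (-(θ * (κ * M) / 4)) < 1 := by
    rw [Real.exp_lt_one_iff]
    have : 0 < θ * (κ * M) := by positivity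
    linarith
  have h9 : θ * (1 - Real.exp (-(θ * (κ * M) / 4))) < p' := by
    calc θ * (1 - Real.exp (-(θ * (κ * M) / 4))) < p * (1 - Real.exp (-(θ * (κ * M) / 4))) :=
          mul_lt_mul_of_pos_right hθp (by linarith)
      _ ≤ p * (1 - Real.exp (-(p * (κ * M) / 4))) := by
          apply mul_le_mul_of_nonneg_left _ hp0.le
          linarith
      _ ≤ p' := by linarith
  have h10 : 0 < p' := lt_of_le_of_lt (mul_nonneg hθ.le (by linarith)) h9
  exact (ENNReal.ofReal_lt_ofReal_iff h10).mpr h9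

end Pool.Agent.V11321.LRP
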