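import Mathlib
import Pool.Agent.V11321.LRP.Step3

set_option autoImplicit false
set_option linter.unusedSectionVars false

open MeasureTheory ProbabilityTheory
open scoped ENNReal NNReal

namespace Pool.Agent.V11321.LRP

variable {Γ : Type*} [Group Γ] [Countable Γ] [Infinite Γ]

/-- The lower bounds for the probabilities. -/
noncomputable def th (θ0 : ℝ) (n : ℕ) : ℝ := θ0 * (1 / 2 + (1 / 2) ^ (n + 1))

/-- The weights of the layers. -/
noncomputable def aw (n : ℕ) : ℝ≥0 := 1 / 4 * (3 / 4) ^ n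

lemma th_pos {θ0 : ℝ} (h : 0 < θ0) (n : ℕ) : 0 < th θ0 n := by
  unfold th; positivity

lemma th_ge {θ0 : ℝ} (h : 0 < θ0) (n : ℕ) : θ0 / 2 ≤ th θ0 n := by
  unfold th
  have : (0 : ℝ) < (1 / 2) ^ (n + 1) := by positivity
  nlinarith

lemma num_step {θ0 κ M0 : ℝ} (hθ : 0 < θ0) (hk : 64 ≤ θ0 * κ * M0) (n : ℕ) :
    th θ0 (n + 1) ≤ th θ0 n * (1 - Real.exp (-(th θ0 n * ((1 / 4 * (3 / 4) ^ n * κ) * (M0 * 2 ^ n)) / 4))) := by
  have h1 : ((n : ℝ) + 2) * Real.log 2 ≤ th θ0 n * ((1 / 4 * (3 / 4) ^ n * κ) * (M0 * 2 ^ n)) / 4 := by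
    have e1 : ((3 : ℝ) / 4) ^ n * 2 ^ n = (3 / 2) ^ n := by
      rw [← mul_pow]; norm_num
    have e2 : 1 + (n : ℝ) / 2 ≤ (3 / 2) ^ n := by
      have := one_add_mul_le_pow (a := (1 / 2 : ℝ)) (by norm_num) n
      calc 1 + (n : ℝ) / 2 = 1 + n * (1 / 2) := by ring
        _ ≤ (1 + 1 / 2) ^ n := this
        _ = _ := by norm_num
    have h2 := th_ge hθ n
    have hpos : (0 : ℝ) < (3 / 2) ^ n := by positivity
    have e3 : th θ0 n * ((1 / 4 * (3 / 4) ^ n * κ) * (M0 * 2 ^ n)) / 4 =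
        th θ0 n * (κ * M0) * (3 / 2) ^ n / 16 := by
      rw [← e1]; ring
    rw [e3]
    have hkM : 0 < κ * M0 := by
      by_contra hc
      push Not at hc
      nlinarith
    have e4 : 64 / 2 * (3 / 2) ^ n / 16 ≤ th θ0 n * (κ * M0) * (3 / 2) ^ n / 16 := by
      have : 64 / 2 ≤ th θ0 n * (κ * M0) := by nlinarith
      have := mul_le_mul_of_nonneg_right this hpos.le
      linarith
    have hl : Real.log 2 ≤ 1 := by
      have := Real.log_two_lt_d9; linarith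
    have hn : (0 : ℝ) ≤ n := Nat.cast_nonneg n
    calc ((n : ℝ) + 2) * Real.log 2 ≤ (n + 2) * 1 := by
          apply mul_le_mul_of_nonneg_left hl (by linarith)
      _ = 2 * (1 + n / 2) := by ring
      _ ≤ 2 * (3 / 2) ^ n := by linarith
      _ = 64 / 2 * (3 / 2) ^ n / 16 := by ring
      _ ≤ _ := e4
  have h3 : Real.exp (-(th θ0 n * ((1 / 4 * (3 / 4) ^ n * κ) * (M0 * 2 ^ n)) / 4)) ≤ (1 / 2) ^ (n + 2) := by
    calc _ ≤ Real.exp (-(((n : ℝ) + 2) * Real.log 2)) := Real.exp_le_exp.mpr (by linarith)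
      _ = (1 / 2) ^ (n + 2) := by
        have : -(((n : ℝ) + 2) * Real.log 2) = ((n + 2 : ℕ) : ℝ) * (-Real.log 2) := by push_cast; ring
        rw [this, Real.exp_nat_mul, Real.exp_neg, Real.exp_log (by norm_num)]
        norm_num
  set δ := Real.exp (-(th θ0 n * ((1 / 4 * (3 / 4) ^ n * κ) * (M0 * 2 ^ n)) / 4)) with hδ
  have h4 : (1 / 2 : ℝ) + (1 / 2) ^ (n + 1) ≤ 1 := by
    have : ((1 : ℝ) / 2) ^ (n + 1) ≤ 1 / 2 := by
      rw [pow_succ]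
      have : ((1 : ℝ) / 2) ^ n ≤ 1 := pow_le_one₀ (by norm_num) (by norm_num)
      linarith
    linarith
  have hd0 : 0 ≤ δ := Real.exp_nonneg _
  unfold th
  have h5 : ((1 : ℝ) / 2) ^ (n + 1) = 2 * (1 / 2) ^ (n + 1 + 1) := by rw [pow_succ _ (n + 1)]; ring
  have h6 : δ * (1 / 2 + (1 / 2) ^ (n + 1)) ≤ (1 / 2) ^ (n + 2) := by
    calc _ ≤ δ * 1 := mul_le_mul_of_nonneg_left h4 hd0
      _ ≤ _ := by linarith
  have h7 : (1 / 2 + (1 / 2 : ℝ) ^ (n + 1 + 1)) ≤ (1 / 2 + (1 / 2) ^ (n + 1)) * (1 - δ) := by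
    have : n + 1 + 1 = n + 2 := rfl
    rw [this] at h5 ⊢
    nlinarith
  calc θ0 * (1 / 2 + (1 / 2) ^ (n + 1 + 1)) ≤ θ0 * ((1 / 2 + (1 / 2) ^ (n + 1)) * (1 - δ)) :=
        mul_le_mul_of_nonneg_left h7 hθ.le
    _ = _ := by ring

lemma step_num' {θ0 : ℝ} (hθ : 0 < θ0) {κ : ℝ≥0} (hκ : 0 < κ) {M0 : ℕ} (hM : 0 < M0)
    (hk : 64 ≤ θ0 * κ * M0) (n : ℕ) (f : Γ → ℝ≥0)
    (h : ENNReal.ofReal (th θ0 n) < P (W f) (big (Set.univ : Set Γ) 1 (M0 * 2 ^ n))) :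
    ∃ ν : Γ → ℝ≥0, (∀ g, ν g⁻¹ = ν g) ∧ HasSum ν 1 ∧
      ENNReal.ofReal (th θ0 (n + 1)) <
        P (W (fun x => f x + κ * (aw n * ν x))) (big (Set.univ : Set Γ) 1 (M0 * 2 ^ (n + 1))) := by
  obtain ⟨ν, h1, h2, h3⟩ := step_num f (th_pos hθ n) (aw n * κ) (by unfold aw; positivity)
    (by positivity) h
  refine ⟨ν, h1, h2, ?_⟩
  have e1 : (fun x => f x + κ * (aw n * ν x)) = fun x => f x + aw n * κ * ν x := by
    funext x; ring
  have e2 : M0 * 2 ^ (n + 1) = 2 * (M0 * 2 ^ n) := by ring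
  rw [e1, e2]
  refine lt_of_le_of_lt (ENNReal.ofReal_le_ofReal ?_) h3
  have := num_step hθ (κ := κ) (M0 := M0) hk n
  refine this.trans (le_of_eq ?_)
  unfold aw
  push_cast
  ring_nf

lemma tsum_aw : ∑' n, (aw n : ℝ≥0∞) = 1 := by
  have h : HasSum aw 1 := by
    have h0 : HasSum (fun n : ℕ => ((3 : ℝ) / 4) ^ n) ((1 - 3 / 4)⁻¹) :=
      hasSum_geometric_of_lt_one (by norm_num) (by norm_num)
    have h1 := h0.mul_left (1 / 4 : ℝ)
    rw [← NNReal.hasSum_coe]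
    have e1 : (fun a => ((aw a : ℝ≥0) : ℝ)) = fun i => 1 / 4 * ((3 : ℝ) / 4) ^ i := by
      funext a; unfold aw; push_cast; rfl
    have e2 : ((1 : ℝ≥0) : ℝ) = 1 / 4 * (1 - 3 / 4)⁻¹ := by norm_num
    rw [e1, e2]
    exact h1
  have := (ENNReal.hasSum_coe.mpr h).tsum_eq
  simpa using this

theorem tower {θ0 : ℝ} (hθ : 0 < θ0) {κ : ℝ≥0} (hκ : 0 < κ) {M0 : ℕ} (hM : 0 < M0)
    (hk : 64 ≤ θ0 * κ * M0) (f0 : Γ → ℝ≥0)
    (h : ENNReal.ofReal θ0 < P (W f0) (big (Set.univ : Set Γ) 1 M0)) :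
    ∃ ρ : Γ → ℝ≥0, (∀ g, ρ g⁻¹ = ρ g) ∧ ∑' g, (ρ g : ℝ≥0∞) = 1 ∧
      ∀ g : Γ → ℝ≥0, (∀ x, f0 x + κ * ρ x ≤ g x) → ∀ n : ℕ,
        ENNReal.ofReal (θ0 / 2) < P (W g) (big (Set.univ : Set Γ) 1 (M0 * 2 ^ n)) := by
  classical
  let S : ℕ → Type _ := fun n => {f : Γ → ℝ≥0 //
    ENNReal.ofReal (th θ0 n) < P (W f) (big (Set.univ : Set Γ) 1 (M0 * 2 ^ n))}
  let ν' : (n : ℕ) → S n → (Γ → ℝ≥0) := fun n s => (step_num' hθ hκ hM hk n s.1 s.2).choose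
  have hν' : ∀ n (s : S n), (∀ g, ν' n s g⁻¹ = ν' n s g) ∧ HasSum (ν' n s) 1 ∧
      ENNReal.ofReal (th θ0 (n + 1)) <
        P (W (fun x => s.1 x + κ * (aw n * ν' n s x))) (big (Set.univ : Set Γ) 1 (M0 * 2 ^ (n + 1))) :=
    fun n s => (step_num' hθ hκ hM hk n s.1 s.2).choose_spec
  let F : (n : ℕ) → S n := fun n => Nat.rec
    (⟨f0, by
      have : th θ0 0 = θ0 := by unfold th; norm_num
      rw [this]; simpa using h⟩)
    (fun n s => ⟨fun x => s.1 x + κ * (aw n * ν' n s x), (hν' n s).2.2⟩) n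
  let ν : ℕ → Γ → ℝ≥0 := fun n => ν' n (F n)
  have hF0 : (F 0).1 = f0 := rfl
  have hFs : ∀ n, (F (n + 1)).1 = fun x => (F n).1 x + κ * (aw n * ν n x) := fun n => rfl
  have hνs : ∀ n, ∑' g, (ν n g : ℝ≥0∞) = 1 := fun n => by
    have := (ENNReal.hasSum_coe.mpr (hν' n (F n)).2.1).tsum_eq
    simpa using this
  have hρsum : ∑' g, ∑' n, ((aw n * ν n g : ℝ≥0) : ℝ≥0∞) = 1 := by
    rw [ENNReal.tsum_comm]
    have : ∀ n, ∑' g, ((aw n * ν n g : ℝ≥0) : ℝ≥0∞) = aw n := by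
      intro n
      simp_rw [ENNReal.coe_mul]
      rw [ENNReal.tsum_mul_left, hνs, mul_one]
    simp_rw [this]
    exact tsum_aw
  have hfin : ∀ g, ∑' n, ((aw n * ν n g : ℝ≥0) : ℝ≥0∞) ≠ ⊤ := by
    intro g
    have := ENNReal.le_tsum (f := fun g => ∑' n, ((aw n * ν n g : ℝ≥0) : ℝ≥0∞)) g
    rw [hρsum] at this
    exact ne_top_of_le_ne_top (by simp) this
  refine ⟨fun g => (∑' n, ((aw n * ν n g : ℝ≥0) : ℝ≥0∞)).toNNReal, ?_, ?_, ?_⟩
  · intro g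
    simp only
    congr 1
    refine tsum_congr fun n => ?_
    have : ν n g⁻¹ = ν n g := (hν' n (F n)).1 g
    rw [this]
  · rw [← hρsum]
    refine tsum_congr fun g => ?_
    rw [ENNReal.coe_toNNReal (hfin g)]
  · intro g hg n
    have hle : ∀ n x, (F n).1 x = f0 x + κ * ∑ k ∈ Finset.range n, aw k * ν k x := by
      intro n
      induction n with
      | zero => intro x; simp [hF0]
      | succ n ih =>
        intro x
        rw [hFs]
        simp only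
        rw [ih x, Finset.sum_range_succ]
        ring
    have hle2 : (F n).1 ≤ g := by
      intro x
      refine le_trans ?_ (hg x)
      rw [hle n x]
      gcongr
      rw [← ENNReal.coe_le_coe, ENNReal.coe_toNNReal (hfin x)]
      push_cast
      have := ENNReal.sum_le_tsum (f := fun n => ((aw n * ν n x : ℝ≥0) : ℝ≥0∞)) (Finset.range n)
      push_cast at this
      exact this
    calc ENNReal.ofReal (θ0 / 2) ≤ ENNReal.ofReal (th θ0 n) := ENNReal.ofReal_le_ofReal (th_ge hθ n)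
      _ < P (W (F n).1) (big (Set.univ : Set Γ) 1 (M0 * 2 ^ n)) := (F n).2
      _ ≤ _ := P_mono (W_mono hle2) (measurableSet_big_univ _ _) (isUpperSet_big _ _ _)

end Pool.Agent.V11321.LRP
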