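import Mathlib
import Pool.Agent.V11321.LRP.Tower
import Pool.Agent.V11321.LRP.Defs

set_option autoImplicit false
set_option linter.unusedSectionVars false

open MeasureTheory ProbabilityTheory
open scoped ENNReal NNReal

namespace Pool.Agent.V11321.LRP

variable {Γ : Type*} [Group Γ]

lemma law_eq (μ : GenMeasure Γ) (l : ℝ≥0) :
    μ.law l = P (W (fun x => l * (μ.toPMF x).toNNReal)) := by
  unfold GenMeasure.law P
  congr 1
  funext e
  congr 1
  induction e using Sym2.ind with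
  | _ x y =>
    rw [W_mk]
    have e1 : y⁻¹ * x = (x⁻¹ * y)⁻¹ := by group
    rw [e1, μ.symm, ← two_mul, mul_div_cancel_left₀ _ two_ne_zero]
    rfl

lemma gIn_univ (ω : Sym2 Γ → ℕ) : gIn ω Set.univ = graph ω := by
  ext x y
  simp [gIn, graph]

lemma hasInfinite_of {ω : Sym2 Γ → ℕ} {M0 : ℕ} (hM : 0 < M0)
    (h : ∀ n : ℕ, ω ∈ big (Set.univ : Set Γ) 1 (M0 * 2 ^ n)) : HasInfiniteComponent ω := by
  refine ⟨(graph ω).connectedComponentMk 1, ?_⟩
  have e : ((graph ω).connectedComponentMk 1).supp = clu ω Set.univ 1 := by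
    ext y
    simp only [SimpleGraph.ConnectedComponent.mem_supp_iff, SimpleGraph.ConnectedComponent.eq, clu,
      Set.mem_ofPred_eq, gIn_univ]
    exact SimpleGraph.reachable_comm
  rw [e]
  intro hfin
  obtain ⟨n, hn⟩ := (Set.encard_lt_top_iff.mpr hfin).ne |> fun h => ENat.ne_top_iff_exists.mp h
  have h2 := h n
  have h3 : ((M0 * 2 ^ n : ℕ) : ℕ∞) ≤ n := by rw [hn]; exact h2
  have h4 : M0 * 2 ^ n ≤ n := by exact_mod_cast h3
  have h5 : n < 2 ^ n := Nat.lt_two_pow_self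
  have h6 : 2 ^ n ≤ M0 * 2 ^ n := Nat.le_mul_of_pos_left _ hM
  omega

lemma pos_infinite [Countable Γ] {g : Γ → ℝ≥0} {θ : ℝ} (hθ : 0 < θ) {M0 : ℕ} (hM : 0 < M0)
    (h : ∀ n : ℕ, ENNReal.ofReal θ < P (W g) (big (Set.univ : Set Γ) 1 (M0 * 2 ^ n))) :
    P (W g) {ω | HasInfiniteComponent ω} ≠ 0 := by
  have h1 : ENNReal.ofReal θ ≤ P (W g) (⋂ n : ℕ, big (Set.univ : Set Γ) 1 (M0 * 2 ^ n)) := by
    rw [Antitone.measure_iInter]
    · exact le_iInf fun n => (h n).le
    · intro m n hmn ω (hω : ((M0 * 2 ^ n : ℕ) : ℕ∞) ≤ _)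
      show ((M0 * 2 ^ m : ℕ) : ℕ∞) ≤ _
      refine le_trans ?_ hω
      have : M0 * 2 ^ m ≤ M0 * 2 ^ n := Nat.mul_le_mul_left _ (Nat.pow_le_pow_right (by norm_num) hmn)
      exact_mod_cast this
    · exact fun n => (measurableSet_big_univ _ _).nullMeasurableSet
    · exact ⟨0, measure_ne_top _ _⟩
  have h2 : P (W g) (⋂ n : ℕ, big (Set.univ : Set Γ) 1 (M0 * 2 ^ n)) ≤
      P (W g) {ω | HasInfiniteComponent ω} := by
    refine measure_mono fun ω hω => ?_
    exact hasInfinite_of hM (fun n => Set.mem_iInter.mp hω n)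
  have h3 : 0 < ENNReal.ofReal θ := ENNReal.ofReal_pos.mpr hθ
  exact (lt_of_lt_of_le h3 (h1.trans h2)).ne'

/-- A symmetric probability with full support. -/
lemma exists_full [Countable Γ] : ∃ p : PMF Γ, (∀ g, p g⁻¹ = p g) ∧ ∀ g, p g ≠ 0 := by
  classical
  obtain ⟨e, he⟩ := exists_injective_nat Γ
  let w : Γ → ℝ≥0∞ := fun g => (1 / 2) ^ (e g + 1)
  have hw1 : ∑' g, w g ≤ 1 := by
    calc ∑' g, w g ≤ ∑' n : ℕ, ((1 : ℝ≥0∞) / 2) ^ (n + 1) :=
          ENNReal.tsum_comp_le_tsum_of_injective he (fun n => ((1 : ℝ≥0∞) / 2) ^ (n + 1))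
      _ = 1 := by
          simp_rw [pow_succ, ENNReal.tsum_mul_right]
          rw [ENNReal.tsum_geometric]
          simp only [one_div, ENNReal.one_sub_inv_two, inv_inv]
          exact ENNReal.mul_inv_cancel (by norm_num) (by norm_num)
  have hwpos : ∀ g, w g ≠ 0 := fun g => by
    simp [w]
  let v : Γ → ℝ≥0∞ := fun g => w g + w g⁻¹
  have hv0 : ∑' g, v g ≠ 0 := by
    intro h
    have := ENNReal.tsum_eq_zero.mp h 1
    exact hwpos 1 (by simpa using (add_eq_zero.mp this).1)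
  have hv1 : ∑' g, v g ≠ ⊤ := by
    have : ∑' g, v g = ∑' g, w g + ∑' g : Γ, w g⁻¹ := ENNReal.tsum_add
    rw [this]
    have h2 : ∑' g : Γ, w g⁻¹ = ∑' g, w g := (Equiv.inv Γ).tsum_eq w
    rw [h2]
    exact ENNReal.add_ne_top.mpr ⟨ne_top_of_le_ne_top (by simp) hw1, ne_top_of_le_ne_top (by simp) hw1⟩
  refine ⟨PMF.normalize v hv0 hv1, ?_, ?_⟩
  · intro g
    simp only [PMF.normalize_apply, v, inv_inv]
    rw [add_comm]
  · intro g
    simp only [PMF.normalize_apply]
    refine mul_ne_zero ?_ (ENNReal.inv_ne_zero.mpr hv1)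
    intro h
    exact hwpos g (add_eq_zero.mp h).1

theorem exists_finite_lambdaC (Γ : Type*) [Group Γ] [Countable Γ] [Infinite Γ] :
    ∃ μ : GenMeasure Γ, μ.lambdaC < ⊤ := by
  classical
  have hstart : ENNReal.ofReal (1 / 2) < P (W (fun _ : Γ => 0)) (big (Set.univ : Set Γ) 1 1) := by
    have : big (Set.univ : Set Γ) 1 1 = Set.univ := by
      refine Set.eq_univ_of_forall fun ω => ?_
      show ((1 : ℕ) : ℕ∞) ≤ _
      rw [Nat.cast_one, Set.one_le_encard_iff_nonempty]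
      exact ⟨1, mem_clu_self ω _ 1⟩
    rw [this, measure_univ]
    rw [← ENNReal.ofReal_one]
    exact (ENNReal.ofReal_lt_ofReal_iff (by norm_num)).mpr (by norm_num)
  obtain ⟨ρ, h1, h2, h3⟩ := tower (Γ := Γ) (θ0 := 1 / 2) (by norm_num) (κ := 128) (by norm_num)
    (M0 := 1) (by norm_num) (by norm_num) (fun _ => 0) hstart
  obtain ⟨p, hp1, hp2⟩ := exists_full (Γ := Γ)
  have hsum : HasSum (fun g => ((ρ g : ℝ≥0∞) + p g) / 2) 1 := by
    have h4 : ∑' g, ((ρ g : ℝ≥0∞) + p g) / 2 = 1 := by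
      simp_rw [div_eq_mul_inv]
      rw [ENNReal.tsum_mul_right, ENNReal.tsum_add, h2, p.tsum_coe, one_add_one_eq_two]
      exact ENNReal.mul_inv_cancel (by norm_num) (by norm_num)
    rw [← h4]
    exact ENNReal.summable.hasSum
  let q : PMF Γ := ⟨fun g => ((ρ g : ℝ≥0∞) + p g) / 2, hsum⟩
  have hq : ∀ g, q g = ((ρ g : ℝ≥0∞) + p g) / 2 := fun g => rfl
  let μ : GenMeasure Γ :=
    { toPMF := q
      symm := fun g => by rw [hq, hq, h1, hp1]
      gen := by
        have : q.support = Set.univ := by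
          refine Set.eq_univ_of_forall fun g => ?_
          rw [PMF.mem_support_iff, hq]
          intro h0
          rw [ENNReal.div_eq_zero_iff] at h0
          rcases h0 with h0 | h0
          · exact hp2 g (add_eq_zero.mp h0).2
          · exact absurd h0 (by norm_num)
        rw [this]
        exact Subgroup.closure_univ }
  refine ⟨μ, ?_⟩
  have key : μ.lambdaC ≤ 256 := by
    refine sSup_le ?_
    rintro x ⟨l, hl, hP, rfl⟩
    by_contra hc
    push Not at hc
    have hl256 : (256 : ℝ≥0) ≤ l := by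
      have : ((256 : ℝ≥0) : ℝ≥0∞) < l := by exact_mod_cast hc
      exact (ENNReal.coe_lt_coe.mp this).le
    rw [law_eq] at hP
    refine pos_infinite (θ := 1 / 2 / 2) (by norm_num) (M0 := 1) (by norm_num) (fun n => ?_) hP
    refine h3 _ (fun x => ?_) n
    have hx : ρ x / 2 ≤ (μ.toPMF x).toNNReal := by
      have h5 : ((ρ x / 2 : ℝ≥0) : ℝ≥0∞) ≤ q x := by
        rw [hq, ENNReal.coe_div (by norm_num)]
        push_cast
        gcongr
        exact le_self_add
      have h6 : q x ≠ ⊤ := q.apply_ne_top x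
      rw [← ENNReal.coe_le_coe]
      show _ ≤ ((q x).toNNReal : ℝ≥0∞)
      rw [ENNReal.coe_toNNReal h6]
      exact h5
    calc (0 : ℝ≥0) + 128 * ρ x = 256 * (ρ x / 2) := by
          rw [zero_add]
          have : (256 : ℝ≥0) = 128 * 2 := by norm_num
          rw [this, mul_assoc, mul_div_cancel₀ _ (two_ne_zero)]
      _ ≤ l * (μ.toPMF x).toNNReal := mul_le_mul' hl256 hx
  exact lt_of_le_of_lt key (by norm_num)

end Pool.Agent.V11321.LRP
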