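import Mathlib
import Pool.Agent.V11321.LRP.Step

set_option autoImplicit false
set_option linter.unusedSectionVars false

open MeasureTheory ProbabilityTheory
open scoped ENNReal NNReal

namespace Pool.Agent.V11321.LRP

section indep

variable {E : Type*}

/-- Independence of events which depend on disjoint sets of coordinates. -/
lemma P_inter_of_dependsOn (w : E → ℝ≥0) {I J : Set E} (hIJ : Disjoint I J) {A B : Set (E → ℕ)}
    (hAm : MeasurableSet A) (hBm : MeasurableSet B) (hA : DependsOn (fun ω => ω ∈ A) I)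
    (hB : DependsOn (fun ω => ω ∈ B) J) : P w (A ∩ B) = P w A * P w B := by
  classical
  have hind : iIndepFun (fun (i : E) (ω : E → ℕ) => ω i) (P w) := by
    unfold P
    exact iIndepFun_infinitePi (X := fun _ x => x) (fun _ => measurable_id)
  have hI : iIndep (fun i => MeasurableSpace.comap (fun ω : E → ℕ => ω i) inferInstance) (P w) :=
    (iIndepFun_iff_iIndep _ _ _).mp hind
  have h2 := indep_iSup_of_disjoint (fun i => (measurable_pi_apply i).comap_le) hI hIJ
  have key : ∀ (K : Set E) (D : Set (E → ℕ)), MeasurableSet D → DependsOn (fun ω => ω ∈ D) K →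
      MeasurableSet[⨆ i ∈ K, MeasurableSpace.comap (fun ω : E → ℕ => ω i) inferInstance] D := by
    intro K D hD hdep
    have hg : @Measurable _ _ (⨆ i ∈ K, MeasurableSpace.comap (fun ω : E → ℕ => ω i) inferInstance) _
        (fun (ω : E → ℕ) (e : E) => if e ∈ K then ω e else 0) := by
      refine @measurable_pi_lambda _ _ _ (_) _ _ fun e => ?_
      by_cases he : e ∈ K
      · simp only [he, if_true]
        have h3 : MeasurableSpace.comap (fun ω : E → ℕ => ω e) inferInstance ≤
            ⨆ i ∈ K, MeasurableSpace.comap (fun ω : E → ℕ => ω i) inferInstance :=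
          le_iSup₂ (f := fun i (_ : i ∈ K) => MeasurableSpace.comap (fun ω : E → ℕ => ω i) inferInstance) e he
        exact Measurable.mono (comap_measurable _) h3 le_rfl
      · simp only [he, if_false]
        exact measurable_const
    have heq : D = (fun (ω : E → ℕ) (e : E) => if e ∈ K then ω e else 0) ⁻¹' D := by
      ext ω
      have := hdep (x := ω) (y := fun e => if e ∈ K then ω e else 0) (fun e he => by simp [he])
      simp only [eq_iff_iff] at this
      exact this
    rw [heq]
    exact hg hD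
  have h3 := (Indep_iff _ _ _).mp h2 A B (key I A hAm hA) (key J B hBm hB)
  exact h3

end indep

section explore

variable {V : Type*}

/-- The graph of the pairs in `H` carrying at least one edge. -/
def gE (ω : Sym2 V → ℕ) (H : Set (Sym2 V)) : SimpleGraph V where
  Adj x y := x ≠ y ∧ 0 < ω s(x, y) ∧ s(x, y) ∈ H
  symm := ⟨fun x y h => ⟨h.1.symm, by rw [Sym2.eq_swap]; exact h.2.1, by rw [Sym2.eq_swap]; exact h.2.2⟩⟩
  loopless := ⟨fun x h => h.1 rfl⟩

/-- The cluster of `x` in that graph. -/
def cE (ω : Sym2 V → ℕ) (H : Set (Sym2 V)) (x : V) : Set V := {y | (gE ω H).Reachable x y}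

/-- The pairs inside `B`. -/
def wi (B : Set V) : Set (Sym2 V) := {e | ∀ v ∈ e, v ∈ B}

lemma mk_mem_wi {B : Set V} {x y : V} : s(x, y) ∈ wi B ↔ x ∈ B ∧ y ∈ B := by
  simp [wi]

lemma clu_eq_cE (ω : Sym2 V → ℕ) (B : Set V) (x : V) : clu ω B x = cE ω (wi B) x := by
  have : gIn ω B = gE ω (wi B) := by
    ext x y
    simp [gIn, gE, mk_mem_wi]
  simp only [clu, cE, this]

lemma gE_mono {ω : Sym2 V → ℕ} {H H' : Set (Sym2 V)} (h : H ⊆ H') : gE ω H ≤ gE ω H' := by
  intro x y hxy
  exact ⟨hxy.1, hxy.2.1, h hxy.2.2⟩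

lemma cE_mono {ω : Sym2 V → ℕ} {H H' : Set (Sym2 V)} (h : H ⊆ H') (x : V) : cE ω H x ⊆ cE ω H' x :=
  fun _ hy => SimpleGraph.Reachable.mono (gE_mono h) hy

lemma gE_congr {ω ω' : Sym2 V → ℕ} {H : Set (Sym2 V)} (h : ∀ e ∈ H, ω e = ω' e) :
    gE ω H = gE ω' H := by
  ext x y
  constructor
  · rintro ⟨a, b, c⟩
    exact ⟨a, by rw [← h _ c]; exact b, c⟩
  · rintro ⟨a, b, c⟩
    exact ⟨a, by rw [h _ c]; exact b, c⟩

lemma cE_dependsOn (H : Set (Sym2 V)) (x : V) : DependsOn (fun ω : Sym2 V → ℕ => cE ω H x) H := by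
  intro ω ω' h
  simp only [cE]
  rw [gE_congr h]

lemma mem_cE_iff_finset (ω : Sym2 V → ℕ) (H : Set (Sym2 V)) (x y : V) :
    y ∈ cE ω H x ↔ ∃ T : Finset (Sym2 V), (T : Set (Sym2 V)) ⊆ H ∧ y ∈ cE ω (T : Set (Sym2 V)) x := by
  classical
  constructor
  · intro hy
    obtain ⟨p⟩ := (hy : (gE ω H).Reachable x y)
    induction p with
    | @nil u => exact ⟨∅, by simp, SimpleGraph.Reachable.refl _⟩
    | @cons u v w h p ih =>
      obtain ⟨T, hT, hr⟩ := ih
      refine ⟨insert s(u, v) T, ?_, ?_⟩
      · intro e he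
        simp only [Finset.coe_insert, Set.mem_insert_iff] at he
        rcases he with rfl | he
        · exact h.2.2
        · exact hT he
      · have hadj : (gE ω ((insert s(u, v) T : Finset (Sym2 V)) : Set (Sym2 V))).Adj u v :=
          ⟨h.1, h.2.1, by simp⟩
        exact hadj.reachable.trans (cE_mono (by simp) v hr)
  · rintro ⟨T, hT, hy⟩
    exact cE_mono hT x hy

lemma measurableSet_mem_cE [Countable V] (H : Set (Sym2 V)) (x y : V) :
    MeasurableSet {ω : Sym2 V → ℕ | y ∈ cE ω H x} := by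
  have : {ω : Sym2 V → ℕ | y ∈ cE ω H x} =
      ⋃ T : Finset (Sym2 V), {ω | (T : Set (Sym2 V)) ⊆ H ∧ y ∈ cE ω (T : Set (Sym2 V)) x} := by
    ext ω
    simp only [Set.mem_iUnion, Set.mem_ofPred_eq]
    exact mem_cE_iff_finset ω H x y
  rw [this]
  refine MeasurableSet.iUnion fun T => ?_
  refine measurableSet_of_dependsOn T _ ?_
  intro ω ω' h
  have := cE_dependsOn (T : Set (Sym2 V)) x h
  simp only at this
  simp only [Set.mem_ofPred_eq, this]

lemma measurableSet_cE_eq [Countable V] (H : Set (Sym2 V)) (x : V) (A : Set V) :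
    MeasurableSet {ω : Sym2 V → ℕ | cE ω H x = A} := by
  have : {ω : Sym2 V → ℕ | cE ω H x = A} =
      ⋂ y : V, {ω | y ∈ cE ω H x ↔ y ∈ A} := by
    ext ω
    simp only [Set.mem_iInter, Set.mem_ofPred_eq]
    exact Set.ext_iff
  rw [this]
  refine MeasurableSet.iInter fun y => ?_
  by_cases hy : y ∈ A
  · simp only [hy, iff_true]
    exact measurableSet_mem_cE H x y
  · simp only [hy, iff_false]
    exact (measurableSet_mem_cE H x y).compl

lemma measurableSet_cE_le [Countable V] (H : Set (Sym2 V)) (x : V) (r : ℕ) :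
    MeasurableSet {ω : Sym2 V → ℕ | (cE ω H x).encard ≤ r} := by
  have : {ω : Sym2 V → ℕ | (cE ω H x).encard ≤ r} =
      ⋃ A : {A : Finset V // A.card ≤ r}, {ω | cE ω H x = (A.1 : Set V)} := by
    ext ω
    simp only [Set.mem_iUnion, Set.mem_ofPred_eq, Subtype.exists]
    constructor
    · intro h
      have hfin : (cE ω H x).Finite := Set.finite_of_encard_le_coe h
      refine ⟨hfin.toFinset, ?_, by simp⟩
      rw [hfin.encard_eq_coe_toFinset_card] at h
      exact_mod_cast h
    · rintro ⟨A, hA, h⟩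
      rw [h, Set.encard_coe_eq_coe_finsetCard]
      exact_mod_cast hA
  rw [this]
  exact MeasurableSet.iUnion fun A => measurableSet_cE_eq H x A.1

lemma le_dependsOn (H : Set (Sym2 V)) (x : V) (r : ℕ) :
    DependsOn (fun ω : Sym2 V → ℕ => ω ∈ {ω : Sym2 V → ℕ | (cE ω H x).encard ≤ r}) H := by
  intro ω ω' h
  have := cE_dependsOn H x h
  simp only at this
  simp only [Set.mem_ofPred_eq, this]

/-- The pairs inside `B` which touch `A`. -/
def touch (B A : Set V) : Set (Sym2 V) := {e | e ∈ wi B ∧ ∃ v ∈ e, v ∈ A}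

lemma cE_eq_aux {ω ω' : Sym2 V → ℕ} {B A : Set V} {y : V} (h : ∀ e ∈ touch B A, ω e = ω' e)
    (hA : cE ω (wi B) y = A) : cE ω' (wi B) y = A := by
  have hyA : y ∈ A := by rw [← hA]; exact SimpleGraph.Reachable.refl y
  apply Set.Subset.antisymm
  · -- a walk for ω' from a point of A stays in A
    have key : ∀ (u v : V), (gE ω' (wi B)).Walk u v → u ∈ A → v ∈ A := by
      intro u v p
      induction p with
      | nil => exact id
      | @cons u v w hadj p ih =>
        intro hu
        apply ih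
        have he : s(u, v) ∈ touch B A := ⟨hadj.2.2, u, by simp, hu⟩
        have : (gE ω (wi B)).Adj u v := ⟨hadj.1, by rw [h _ he]; exact hadj.2.1, hadj.2.2⟩
        have hu' : u ∈ cE ω (wi B) y := by rw [hA]; exact hu
        rw [← hA]
        exact SimpleGraph.Reachable.trans hu' this.reachable
    intro v hv
    obtain ⟨p⟩ := (hv : (gE ω' (wi B)).Reachable y v)
    exact key y v p hyA
  · have key : ∀ (u v : V), (gE ω (wi B)).Walk u v → u ∈ A → (gE ω' (wi B)).Reachable u v := by
      intro u v p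
      induction p with
      | nil => exact fun _ => SimpleGraph.Reachable.refl _
      | @cons u v w hadj p ih =>
        intro hu
        have he : s(u, v) ∈ touch B A := ⟨hadj.2.2, u, by simp, hu⟩
        have h1 : (gE ω' (wi B)).Adj u v := ⟨hadj.1, by rw [← h _ he]; exact hadj.2.1, hadj.2.2⟩
        have hu' : u ∈ cE ω (wi B) y := by rw [hA]; exact hu
        have hv : v ∈ A := by
          rw [← hA]
          exact SimpleGraph.Reachable.trans hu' hadj.reachable
        exact h1.reachable.trans (ih hv)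
    intro v hv
    rw [← hA] at hv
    obtain ⟨p⟩ := (hv : (gE ω (wi B)).Reachable y v)
    exact key y v p hyA

lemma eq_dependsOn (B A : Set V) (y : V) :
    DependsOn (fun ω : Sym2 V → ℕ => ω ∈ {ω : Sym2 V → ℕ | cE ω (wi B) y = A}) (touch B A) := by
  intro ω ω' h
  simp only [Set.mem_ofPred_eq, eq_iff_iff]
  exact ⟨fun hA => cE_eq_aux h hA, fun hA => cE_eq_aux (fun e he => (h e he).symm) hA⟩

/-- The pairs explored from `x` through the list `l`, avoiding `F`. -/
def star (x : V) (l : List V) (F : Set V) : Set (Sym2 V) :=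
  wi Fᶜ ∪ {e | ∃ y ∈ l, y ∉ F ∧ e = s(x, y)}

lemma star_subset {x : V} {l l' : List V} {F F' : Set V} (hl : ∀ y ∈ l, y ∈ l') (hF : F' ⊆ F) :
    star x l F ⊆ star x l' F' := by
  rintro e (he | ⟨y, hy, hyF, rfl⟩)
  · exact Or.inl fun v hv hv' => he v hv (hF hv')
  · exact Or.inr ⟨y, hl y hy, fun h => hyF (hF h), rfl⟩

/-- Cluster in the star graph avoids removed points. -/
lemma cE_star_disjoint {ω : Sym2 V → ℕ} {x : V} {l : List V} {F : Set V} {z : V}
    (hz : z ∈ cE ω (star x l F) x) (hzF : z ∈ F) : z = x := by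
  by_contra hne
  have key : ∀ (u v : V), (gE ω (star x l F)).Walk u v → v ∈ F → v ≠ x → u = v := by
    intro u v p
    induction p with
    | nil => exact fun _ _ => rfl
    | @cons u v w hadj p ih =>
      intro hw hwx
      have hvw := ih hw hwx
      subst hvw
      exfalso
      rcases hadj.2.2 with h | ⟨y, hy, hyF, h⟩
      · exact h v (by simp) hw
      · rw [Sym2.eq_iff] at h
        rcases h with ⟨-, rfl⟩ | ⟨-, rfl⟩
        · exact hyF hw
        · exact hwx rfl
  obtain ⟨p⟩ := (hz : (gE ω (star x l F)).Reachable x z)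
  exact hne (key x z p hzF hne).symm

end explore

end Pool.Agent.V11321.LRP
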