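import Mathlib
import Pool.Agent.V11321.LRP.Explore

set_option autoImplicit false
set_option linter.unusedSectionVars false

open MeasureTheory ProbabilityTheory
open scoped ENNReal NNReal

namespace Pool.Agent.V11321.LRP

variable {V : Type*}

lemma P_zero_one (w : Sym2 V → ℝ≥0) (e : Sym2 V) :
    P w {ω | ω e = 0} = ENNReal.ofReal (Real.exp (-(w e : ℝ))) := by
  have := P_zero_set w {e}
  simpa using this

lemma conv_le {c c0 η : ℝ≥0∞} (hc : c ≤ c0) (hc0 : c0 ≤ 1) (hη : η ≤ 1) :
    c + (1 - c) * η ≤ c0 + (1 - c0) * η := by
  obtain ⟨d, rfl⟩ := exists_add_of_le hc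
  have hctop : c ≠ ⊤ := ne_top_of_le_ne_top (by simp) (le_trans le_self_add hc0)
  have hdtop : d ≠ ⊤ := ne_top_of_le_ne_top (by simp) (le_trans le_add_self hc0)
  have h1 : 1 - c = (1 - (c + d)) + d := by
    rw [← tsub_tsub]
    rw [tsub_add_cancel_of_le]
    exact ENNReal.le_sub_of_add_le_left hctop hc0
  rw [h1, add_mul]
  calc c + ((1 - (c + d)) * η + d * η) ≤ c + ((1 - (c + d)) * η + d * 1) := by gcongr
    _ = c + d + (1 - (c + d)) * η := by ring

lemma closed_case {ω : Sym2 V → ℕ} {x y : V} {l : List V} {F : Set V}
    (h0 : ω s(x, y) = 0) : cE ω (star x (y :: l) F) x = cE ω (star x l F) x := by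
  have : gE ω (star x (y :: l) F) = gE ω (star x l F) := by
    ext u v
    constructor
    · rintro ⟨a, b, c⟩
      refine ⟨a, b, ?_⟩
      rcases c with c | ⟨z, hz, hzF, hzz⟩
      · exact Or.inl c
      · rcases List.mem_cons.mp hz with rfl | hz
        · rw [hzz, h0] at b
          exact absurd b (lt_irrefl _)
        · exact Or.inr ⟨z, hz, hzF, hzz⟩
    · rintro ⟨a, b, c⟩
      exact ⟨a, b, star_subset (fun z hz => List.mem_cons_of_mem _ hz) subset_rfl c⟩
  simp only [cE, this]

lemma notMem_star {x y : V} {l : List V} {F : Set V} (hx : x ∈ F) (hy : y ∉ F) (hl : y ∉ l) :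
    s(x, y) ∉ star x l F := by
  rintro (h | ⟨z, hz, hzF, h⟩)
  · exact h x (by simp) hx
  · rw [Sym2.eq_iff] at h
    rcases h with ⟨-, rfl⟩ | ⟨rfl, rfl⟩
    · exact hl hz
    · exact hy hx

lemma open_case {ω : Sym2 V → ℕ} {x y : V} {l : List V} {F : Set V} {A : Set V}
    (hx : x ∈ F) (hy : y ∉ F) (h0 : 0 < ω s(x, y)) (hA : cE ω (wi Fᶜ) y = A) :
    (cE ω (star x l (F ∪ A)) x).encard + A.encard ≤ (cE ω (star x (y :: l) F) x).encard := by
  have hAF : A ⊆ Fᶜ := by
    rw [← hA, ← clu_eq_cE]
    exact clu_subset hy
  have hxA : x ∉ A := fun h => hAF h hx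
  rw [← Set.encard_union_eq]
  · apply Set.encard_le_encard
    apply Set.union_subset
    · exact cE_mono (star_subset (fun z hz => List.mem_cons_of_mem _ hz) Set.subset_union_left) x
    · rw [← hA]
      have h1 : (gE ω (star x (y :: l) F)).Adj x y :=
        ⟨fun h => hy (h ▸ hx), h0, Or.inr ⟨y, by simp, hy, rfl⟩⟩
      intro z hz
      exact h1.reachable.trans (cE_mono Set.subset_union_left y hz)
  · rw [Set.disjoint_left]
    intro z hz hzA
    exact hxA ((cE_star_disjoint hz (Or.inr hzA)) ▸ hzA)

lemma star_bound [Countable V] (w : Sym2 V → ℝ≥0) {c0 η : ℝ≥0∞} (hc0 : c0 ≤ 1) (hη : η ≤ 1)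
    (x : V) (K r : ℕ)
    (ih : ∀ j ≤ r, ∀ F : Finset V, F.card + j ≤ K → ∀ y ∉ F,
      P w {ω | (cE ω (wi (F : Set V)ᶜ) y).encard ≤ j} ≤ η) :
    ∀ (l : List V), l.Nodup → (∀ y ∈ l, P w {ω | ω s(x, y) = 0} ≤ c0) →
      ∀ (F : Finset V) (r' b : ℕ), x ∈ F → r' ≤ r →
        (∀ L : Finset V, (∀ z ∈ L, z ∈ l ∧ z ∈ F) → L.card + r' ≤ b) → F.card + r' ≤ K →
          P w {ω | (cE ω (star x l F) x).encard ≤ (r' + 1 : ℕ)} ≤
            (c0 + (1 - c0) * η) ^ (l.length - b) := by
  classical
  intro l
  induction l with
  | nil =>
    intro _ _ F r' b _ _ _ _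
    simpa using prob_le_one
  | cons y l ihl =>
    intro hnd hcl F r' b hxF hr' hb hK
    rw [List.nodup_cons] at hnd
    have hb0 := hb ∅ (by simp)
    have hβ1 : c0 + (1 - c0) * η ≤ 1 := by
      calc c0 + (1 - c0) * η ≤ c0 + (1 - c0) * 1 := by gcongr
        _ = 1 := by rw [mul_one]; exact add_tsub_cancel_of_le hc0
    by_cases hyF : y ∈ F
    · -- the point `y` is skipped
      have h1 : star x (y :: l) (F : Set V) = star x l F := by
        apply Set.Subset.antisymm
        · rintro e (he | ⟨z, hz, hzF, rfl⟩)
          · exact Or.inl he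
          · rcases List.mem_cons.mp hz with rfl | hz
            · exact absurd hyF hzF
            · exact Or.inr ⟨z, hz, hzF, rfl⟩
        · exact star_subset (fun z hz => List.mem_cons_of_mem _ hz) subset_rfl
      have hb1 := hb {y} (by simp [hyF])
      simp only [Finset.card_singleton] at hb1
      have h2 := ihl hnd.2 (fun z hz => hcl z (List.mem_cons_of_mem _ hz)) F r' (b - 1) hxF hr' ?_ hK
      · rw [h1]
        have h3 : l.length - (b - 1) = (y :: l).length - b := by
          simp only [List.length_cons]; omega
        rw [h3] at h2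
        exact h2
      · intro L hL
        have hyL : y ∉ L := fun h => hnd.1 (hL y h).1
        have := hb (insert y L) (by
          intro z hz
          rcases Finset.mem_insert.mp hz with rfl | hz
          · exact ⟨by simp, hyF⟩
          · exact ⟨List.mem_cons_of_mem _ (hL z hz).1, (hL z hz).2⟩)
        rw [Finset.card_insert_of_notMem hyL] at this
        omega
    · by_cases hlen : l.length < b
      · have h3 : (y :: l).length - b = 0 := by
          simp only [List.length_cons]; omega
        rw [h3, pow_zero]
        exact prob_le_one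
      push Not at hlen
      set X : ℝ≥0∞ := (c0 + (1 - c0) * η) ^ (l.length - b) with hX
      set c : ℝ≥0∞ := P w {ω | ω s(x, y) = 0} with hc
      have hcc0 : c ≤ c0 := hcl y (by simp)
      have hm0 : MeasurableSet {ω : Sym2 V → ℕ | ω s(x, y) = 0} :=
        measurableSet_of_dependsOn {s(x, y)} _ (by
          intro ω ω' h
          have := h s(x, y) (by simp)
          simp [this])
      have hm1 : MeasurableSet {ω : Sym2 V → ℕ | 0 < ω s(x, y)} :=
        measurableSet_of_dependsOn {s(x, y)} _ (by
          intro ω ω' h
          have := h s(x, y) (by simp)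
          simp [this])
      have hP1 : P w {ω : Sym2 V → ℕ | 0 < ω s(x, y)} = 1 - c := by
        rw [hc, ← prob_compl_eq_one_sub hm0]
        congr 1
        ext ω
        simp [Nat.pos_iff_ne_zero]
      -- the closed case
      have hclosed : P w ({ω : Sym2 V → ℕ | ω s(x, y) = 0} ∩
          {ω | (cE ω (star x l F) x).encard ≤ (r' + 1 : ℕ)}) ≤ c * X := by
        rw [P_inter_of_dependsOn w (I := {s(x, y)}) (J := star x l F)]
        · gcongr
          exact ihl hnd.2 (fun z hz => hcl z (List.mem_cons_of_mem _ hz)) F r' b hxF hr'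
            (fun L hL => hb L fun z hz => ⟨List.mem_cons_of_mem _ (hL z hz).1, (hL z hz).2⟩) hK
        · rw [Set.disjoint_singleton_left]
          exact notMem_star (by exact_mod_cast hxF) (by exact_mod_cast hyF) hnd.1
        · exact hm0
        · exact measurableSet_cE_le _ _ _
        · intro ω ω' h
          have := h s(x, y) (by simp)
          simp [this]
        · exact le_dependsOn _ _ _
      -- the open case
      have hopen : P w ({ω : Sym2 V → ℕ | 0 < ω s(x, y)} ∩
          {ω | (cE ω (star x (y :: l) F) x).encard ≤ (r' + 1 : ℕ)}) ≤ (1 - c) * η * X := by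
        have hsub : ({ω : Sym2 V → ℕ | 0 < ω s(x, y)} ∩
            {ω | (cE ω (star x (y :: l) F) x).encard ≤ (r' + 1 : ℕ)}) ⊆
            ⋃ A : {A : Finset V // A.card ≤ r' ∧ y ∈ A}, (({ω : Sym2 V → ℕ | 0 < ω s(x, y)} ∩
              {ω | cE ω (wi (F : Set V)ᶜ) y = (A.1 : Set V)}) ∩
              {ω | (cE ω (star x l ((F ∪ A.1 : Finset V) : Set V)) x).encard ≤ (r' - A.1.card + 1 : ℕ)}) := by
          rintro ω ⟨h1, h2⟩
          simp only [Set.mem_ofPred_eq] at h1 h2
          have h3 := open_case (l := l) (F := (F : Set V)) (by exact_mod_cast hxF) (by exact_mod_cast hyF) h1 rfl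
          have h4 := h3.trans h2
          have h5 : (1 : ℕ∞) ≤ (cE ω (star x l ((F : Set V) ∪ cE ω (wi (F : Set V)ᶜ) y)) x).encard := by
            rw [Set.one_le_encard_iff_nonempty]
            exact ⟨x, SimpleGraph.Reachable.refl x⟩
          have hfin : (cE ω (wi (F : Set V)ᶜ) y).Finite := by
            refine Set.finite_of_encard_le_coe (k := r' + 1) ?_
            exact le_trans le_add_self h4
          have e1 : (cE ω (wi (F : Set V)ᶜ) y) = (hfin.toFinset : Set V) := by simp
          have e2 : (cE ω (wi (F : Set V)ᶜ) y).encard = hfin.toFinset.card :=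
            hfin.encard_eq_coe_toFinset_card
          have hcard : hfin.toFinset.card ≤ r' := by
            have : (1 : ℕ∞) + hfin.toFinset.card ≤ (r' + 1 : ℕ) := by
              rw [← e2]
              exact le_trans (add_le_add_left h5 _) h4
            have h6 : 1 + hfin.toFinset.card ≤ r' + 1 := by exact_mod_cast this
            omega
          refine Set.mem_iUnion.mpr ⟨⟨hfin.toFinset, hcard, by simp [cE]⟩, ⟨h1, e1⟩, ?_⟩
          simp only [Set.mem_ofPred_eq, Finset.coe_union]
          rw [← e1]
          have h7 : (cE ω (star x l ((F : Set V) ∪ cE ω (wi (F : Set V)ᶜ) y)) x).encard +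
              (hfin.toFinset.card : ℕ∞) ≤ ((r' - hfin.toFinset.card + 1 : ℕ) : ℕ∞) + hfin.toFinset.card := by
            rw [← e2]
            refine h4.trans ?_
            rw [e2]
            have : r' + 1 ≤ r' - hfin.toFinset.card + 1 + hfin.toFinset.card := by omega
            exact_mod_cast this
          exact (ENat.add_le_add_iff_right (by simp)).mp h7
        have hterm : ∀ A : {A : Finset V // A.card ≤ r' ∧ y ∈ A},
            P w (({ω : Sym2 V → ℕ | 0 < ω s(x, y)} ∩
              {ω | cE ω (wi (F : Set V)ᶜ) y = (A.1 : Set V)}) ∩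
              {ω | (cE ω (star x l ((F ∪ A.1 : Finset V) : Set V)) x).encard ≤ (r' - A.1.card + 1 : ℕ)}) ≤
            (1 - c) * P w {ω | cE ω (wi (F : Set V)ᶜ) y = (A.1 : Set V)} * X := by
          intro A
          have hcardA : A.1.card ≤ r' := A.2.1
          have hA1 : 1 ≤ A.1.card := Finset.card_pos.mpr ⟨y, A.2.2⟩
          rw [P_inter_of_dependsOn w (I := {s(x, y)} ∪ touch (F : Set V)ᶜ (A.1 : Set V))
            (J := star x l ((F ∪ A.1 : Finset V) : Set V))]
          · rw [P_inter_of_dependsOn w (I := {s(x, y)}) (J := touch (F : Set V)ᶜ (A.1 : Set V)), hP1]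
            · gcongr
              refine ihl hnd.2 (fun z hz => hcl z (List.mem_cons_of_mem _ hz)) (F ∪ A.1)
                (r' - A.1.card) b (by simp [hxF]) (by omega) ?_ ?_
              · intro L hL
                have hL1 : (L ∩ F).card + r' ≤ b := hb _ (by
                  intro z hz
                  rw [Finset.mem_inter] at hz
                  exact ⟨List.mem_cons_of_mem _ (hL z hz.1).1, hz.2⟩)
                have hL2 : L.card ≤ (L ∩ F).card + A.1.card := by
                  calc L.card ≤ ((L ∩ F) ∪ A.1).card := by
                        refine Finset.card_le_card fun z hz => ?_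
                        have := (hL z hz).2
                        simp only [Finset.mem_union, Finset.mem_inter] at this ⊢
                        tauto
                    _ ≤ _ := Finset.card_union_le _ _
                omega
              · have := Finset.card_union_le F A.1
                omega
            · rw [Set.disjoint_singleton_left]
              intro h
              exact (h.1 x (by simp)) (by exact_mod_cast hxF)
            · exact hm1
            · exact measurableSet_cE_eq _ _ _
            · intro ω ω' h
              have := h s(x, y) (by simp)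
              simp [this]
            · exact eq_dependsOn _ _ _
          · rw [Set.disjoint_left]
            rintro e (he | he) he'
            · rw [Set.mem_singleton_iff] at he
              subst he
              rcases he' with h | ⟨z, hz, hzF, h⟩
              · exact (h x (by simp)) (by simp [hxF])
              · rw [Sym2.eq_iff] at h
                rcases h with ⟨-, rfl⟩ | ⟨rfl, rfl⟩
                · exact hnd.1 hz
                · exact hyF hxF
            · obtain ⟨he1, v, hv, hvA⟩ := he
              rcases he' with h | ⟨z, hz, hzF, h⟩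
              · exact (h v hv) (by simp at hvA ⊢; right; exact hvA)
              · subst h
                exact (he1 x (by simp)) (by exact_mod_cast hxF)
          · exact hm1.inter (measurableSet_cE_eq _ _ _)
          · exact measurableSet_cE_le _ _ _
          · intro ω ω' h
            have h1 := h s(x, y) (by simp)
            have hd := eq_dependsOn (F : Set V)ᶜ (A.1 : Set V) y
            have h2 := hd (show ∀ e ∈ touch (F : Set V)ᶜ (A.1 : Set V), ω e = ω' e from
              fun e he => h e (Or.inr he))
            simp only [Set.mem_inter_iff, Set.mem_ofPred_eq, eq_iff_iff] at h2 ⊢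
            rw [h1, h2]
          · exact le_dependsOn _ _ _
        calc _ ≤ P w (⋃ A : {A : Finset V // A.card ≤ r' ∧ y ∈ A}, (({ω : Sym2 V → ℕ | 0 < ω s(x, y)} ∩
              {ω | cE ω (wi (F : Set V)ᶜ) y = (A.1 : Set V)}) ∩
              {ω | (cE ω (star x l ((F ∪ A.1 : Finset V) : Set V)) x).encard ≤ (r' - A.1.card + 1 : ℕ)})) :=
              measure_mono hsub
          _ ≤ _ := measure_iUnion_le _
          _ ≤ ∑' A : {A : Finset V // A.card ≤ r' ∧ y ∈ A},
              (1 - c) * P w {ω | cE ω (wi (F : Set V)ᶜ) y = (A.1 : Set V)} * X :=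
              ENNReal.tsum_le_tsum hterm
          _ = (1 - c) * (∑' A : {A : Finset V // A.card ≤ r' ∧ y ∈ A},
              P w {ω | cE ω (wi (F : Set V)ᶜ) y = (A.1 : Set V)}) * X := by
              rw [ENNReal.tsum_mul_right, ENNReal.tsum_mul_left]
          _ ≤ (1 - c) * η * X := by
              gcongr
              rw [← measure_iUnion]
              · refine le_trans (measure_mono ?_) (ih r' hr' F hK y hyF)
                intro ω hω
                obtain ⟨A, hA⟩ := Set.mem_iUnion.mp hω
                simp only [Set.mem_ofPred_eq] at hA ⊢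
                rw [hA, Set.encard_coe_eq_coe_finsetCard]
                exact_mod_cast A.2.1
              · intro A B hAB
                rw [Function.onFun, Set.disjoint_left]
                intro ω h1 h2
                simp only [Set.mem_ofPred_eq] at h1 h2
                apply hAB
                apply Subtype.ext
                exact_mod_cast h1.symm.trans h2
              · exact fun A => measurableSet_cE_eq _ _ _
      have hsplit : {ω : Sym2 V → ℕ | (cE ω (star x (y :: l) F) x).encard ≤ (r' + 1 : ℕ)} ⊆
          ({ω : Sym2 V → ℕ | ω s(x, y) = 0} ∩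
            {ω | (cE ω (star x l F) x).encard ≤ (r' + 1 : ℕ)}) ∪
          ({ω : Sym2 V → ℕ | 0 < ω s(x, y)} ∩
            {ω | (cE ω (star x (y :: l) F) x).encard ≤ (r' + 1 : ℕ)}) := by
        intro ω hω
        rcases Nat.eq_zero_or_pos (ω s(x, y)) with h | h
        · left
          refine ⟨h, ?_⟩
          simp only [Set.mem_ofPred_eq] at hω ⊢
          rwa [closed_case h] at hω
        · right
          exact ⟨h, hω⟩
      calc _ ≤ _ := measure_mono hsplit
        _ ≤ _ := measure_union_le _ _
        _ ≤ c * X + (1 - c) * η * X := add_le_add hclosed hopen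
        _ = (c + (1 - c) * η) * X := by ring
        _ ≤ (c0 + (1 - c0) * η) * X := mul_le_mul' (conv_le hcc0 hc0 hη) le_rfl
        _ = _ := by
          rw [hX, ← pow_succ']
          congr 1
          simp only [List.length_cons]
          omega

end Pool.Agent.V11321.LRP
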