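import Mathlib
import Pool.Agent.V11321.LRP.Explore2

set_option autoImplicit false
set_option linter.unusedSectionVars false

open MeasureTheory ProbabilityTheory
open scoped ENNReal NNReal

namespace Pool.Agent.V11321.LRP

section

variable {V : Type*}

lemma explore [Countable V] (w : Sym2 V → ℝ≥0) {c0 η : ℝ≥0∞} (hc0 : c0 ≤ 1) (hη : η ≤ 1)
    (nb : V → List V) (K N : ℕ) (hnd : ∀ x, (nb x).Nodup) (hlen : ∀ x, (nb x).length = N)
    (hcl : ∀ x, ∀ y ∈ nb x, P w {ω | ω s(x, y) = 0} ≤ c0)
    (hβ : (c0 + (1 - c0) * η) ^ (N - K) ≤ η) (k : ℕ) :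
    ∀ F : Finset V, F.card + k ≤ K → ∀ x ∉ F,
      P w {ω | (cE ω (wi (F : Set V)ᶜ) x).encard ≤ k} ≤ η := by
  classical
  induction k using Nat.strong_induction_on with
  | _ k ihk =>
    intro F hF x hx
    rcases k with _ | r
    · have : {ω : Sym2 V → ℕ | (cE ω (wi (F : Set V)ᶜ) x).encard ≤ (0 : ℕ)} = ∅ := by
        refine Set.eq_empty_of_forall_notMem fun ω hω => ?_
        simp only [Set.mem_ofPred_eq, Nat.cast_zero, nonpos_iff_eq_zero, Set.encard_eq_zero] at hω
        have : x ∈ cE ω (wi (F : Set V)ᶜ) x := SimpleGraph.Reachable.refl x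
        rw [hω] at this
        exact this
      rw [this]
      simp
    · have h := star_bound w hc0 hη x K r (fun j hj F' hF' y hy => ihk j (by omega) F' hF' y hy)
        (nb x) (hnd x) (hcl x) (insert x F) r K (by simp) le_rfl
        (by
          intro L hL
          have h1 : L.card ≤ (insert x F).card := Finset.card_le_card fun z hz => (hL z hz).2
          have h2 := Finset.card_insert_le x F
          omega)
        (by
          have h2 := Finset.card_insert_le x F
          omega)
      rw [hlen x] at h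
      refine le_trans (measure_mono ?_) (h.trans hβ)
      intro ω hω
      simp only [Set.mem_ofPred_eq] at hω ⊢
      refine le_trans (Set.encard_le_encard (cE_mono ?_ x)) hω
      rintro e (he | ⟨y, hy, hyF, rfl⟩)
      · intro v hv hvF
        exact he v hv (by simp only [Finset.coe_insert, Set.mem_insert_iff]; right; exact hvF)
      · rw [mk_mem_wi]
        refine ⟨by exact_mod_cast hx, fun h => hyF ?_⟩
        simp only [Finset.coe_insert, Set.mem_insert_iff]
        right
        exact h

end

lemma exp_ineq {c : ℝ} (hc : 1 < c) : Real.exp (-(c * ((c - 1) / c ^ 2))) ≤ 1 - (c - 1) / c ^ 2 := by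
  have h0 : 0 < (c - 1) / c ^ 2 := by
    apply div_pos <;> nlinarith
  set t := c * ((c - 1) / c ^ 2) with ht
  have ht0 : 0 ≤ t := by positivity
  have h1 : Real.exp (-t) ≤ 1 - t + t ^ 2 / 2 := by
    have h2 := Real.quadratic_le_exp_of_nonneg ht0
    -- `exp (-t) = 1 / exp t`
    have h3 : (1 - t + t ^ 2 / 2) * Real.exp t ≥ 1 := by
      have h4 : 0 < 1 - t + t ^ 2 / 2 := by nlinarith [sq_nonneg (t - 1)]
      calc (1 - t + t ^ 2 / 2) * Real.exp t ≥ (1 - t + t ^ 2 / 2) * (1 + t + t ^ 2 / 2) := by
            apply mul_le_mul_of_nonneg_left h2 h4.le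
        _ = 1 + t ^ 4 / 4 := by ring
        _ ≥ 1 := by
            have : 0 ≤ t ^ 4 / 4 := by positivity
            linarith
    rw [Real.exp_neg]
    rw [inv_le_iff_one_le_mul₀ (Real.exp_pos t)]
    exact h3
  refine h1.trans ?_
  have hc0 : c ≠ 0 := by linarith
  have e1 : t = (c - 1) / c := by rw [ht]; field_simp
  have e2 : (c - 1) / c ^ 2 = t / c := by rw [e1]; field_simp
  rw [e2]
  have e3 : t * c = c - 1 := by rw [e1]; field_simp
  have e4 : t / c = t - t ^ 2 := by
    rw [div_eq_iff hc0]
    have : t ^ 2 * c = t * (c - 1) := by rw [← e3]; ring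
    nlinarith
  rw [e4]
  nlinarith [sq_nonneg t]

lemma first_level (Γ : Type*) [Group Γ] [Countable Γ] [Infinite Γ] {c : ℝ≥0} (hc : 1 < c) :
    ∃ θ0 : ℝ, 0 < θ0 ∧ ∀ M : ℕ, ∃ ν : Γ → ℝ≥0, (∀ g, ν g⁻¹ = ν g) ∧ ∑' g, (ν g : ℝ≥0∞) = 1 ∧
      ENNReal.ofReal θ0 < P (W (fun g => c * ν g)) (big (Set.univ : Set Γ) 1 M) := by
  classical
  have hcr : (1 : ℝ) < c := by exact_mod_cast hc
  set c' : ℝ := (1 + c) / 2 with hc'
  have hc'1 : 1 < c' := by rw [hc']; linarith
  have hc'c : c' < c := by rw [hc']; linarith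
  set δ : ℝ := (c' - 1) / c' ^ 2 with hδ
  have hδ0 : 0 < δ := by
    apply div_pos
    · linarith
    · positivity
  have hexp := exp_ineq hc'1
  rw [← hδ] at hexp
  have hδ1 : δ ≤ 1 := by
    have := Real.exp_pos (-(c' * δ))
    linarith
  refine ⟨δ / 2, by positivity, fun K => ?_⟩
  -- the number of points
  obtain ⟨N0, hN0⟩ := exists_nat_gt ((c' * c + c * K) / (c - c'))
  obtain ⟨T, hT1, hT2⟩ : ∃ T : Finset Γ, T.card = N0 + K + 1 ∧ (1 : Γ) ∉ T := by
    obtain ⟨T, h1, h2, -⟩ := exists_T (Γ := Γ) {1} ∅ (N0 + K + 1)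
    exact ⟨T, h1, fun h => h2 1 h (by simp)⟩
  set S : Finset Γ := T ∪ T.image (fun g => g⁻¹) with hS
  have hSsymm : ∀ g, g⁻¹ ∈ S ↔ g ∈ S := by
    intro g
    simp only [hS, Finset.mem_union, Finset.mem_image, inv_inj, exists_eq_right]
    constructor
    · rintro (h | h)
      · right; exact ⟨g⁻¹, h, by simp⟩
      · left; exact h
    · rintro (h | ⟨a, h, rfl⟩)
      · right; exact h
      · left; simpa using h
  set N := S.card with hN
  have hNge : N0 + K + 1 ≤ N := by
    rw [← hT1, hN]
    exact Finset.card_le_card Finset.subset_union_left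
  have hNpos : (0 : ℝ) < N := by
    have : 0 < N := by omega
    exact_mod_cast this
  set ν : Γ → ℝ≥0 := fun g => if g ∈ S then (N : ℝ≥0)⁻¹ else 0 with hν
  have hνs : ∀ g, ν g⁻¹ = ν g := by
    intro g
    simp only [hν, hSsymm]
  have hNne : (N : ℝ≥0) ≠ 0 := by
    have : N ≠ 0 := by omega
    exact_mod_cast this
  refine ⟨ν, hνs, ?_, ?_⟩
  · rw [tsum_eq_sum (s := S) (fun g hg => by simp [hν, hg])]
    have : ∀ g ∈ S, (ν g : ℝ≥0∞) = (((N : ℝ≥0)⁻¹ : ℝ≥0) : ℝ≥0∞) := by
      intro g hg
      simp [hν, hg]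
    rw [Finset.sum_congr rfl this, Finset.sum_const, ← hN, nsmul_eq_mul]
    have h2 : ((N : ℕ) : ℝ≥0∞) = ((N : ℝ≥0) : ℝ≥0∞) := by simp
    rw [h2, ← ENNReal.coe_mul, mul_inv_cancel₀ hNne, ENNReal.coe_one]
  · set w := W (fun g : Γ => c * ν g) with hw
    set c0 : ℝ≥0∞ := ENNReal.ofReal (Real.exp (-(c / N : ℝ))) with hc0
    have hc01 : c0 ≤ 1 := by
      rw [hc0, ← ENNReal.ofReal_one]
      apply ENNReal.ofReal_le_ofReal
      rw [Real.exp_le_one_iff]
      have : (0 : ℝ) ≤ c / N := by positivity
      linarith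
    set η : ℝ≥0∞ := ENNReal.ofReal (1 - δ) with hη
    have hη1 : η ≤ 1 := by
      rw [hη, ← ENNReal.ofReal_one]
      apply ENNReal.ofReal_le_ofReal
      linarith
    have hkey := explore w hc01 hη1 (fun x => (S.image (fun s => x * s)).toList) K N
      (fun x => Finset.nodup_toList _)
      (fun x => by
        rw [Finset.length_toList, Finset.card_image_of_injective _ (mul_right_injective x)])
      (fun x y hy => by
        rw [P_zero_one]
        simp only [Finset.mem_toList, Finset.mem_image] at hy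
        obtain ⟨s, hs, rfl⟩ := hy
        apply le_of_eq
        rw [hc0]
        congr 3
        rw [hw, W_mk]
        have e1 : x⁻¹ * (x * s) = s := by group
        have e2 : (x * s)⁻¹ * x = s⁻¹ := by group
        rw [e1, e2, hνs]
        simp only [hν, hs, if_true]
        push_cast
        field_simp
        norm_num)
      (by
        set q : ℝ := 1 - Real.exp (-(c / N : ℝ)) with hq
        have hq0 : 0 ≤ q := by
          rw [hq]
          have : Real.exp (-(c / N : ℝ)) ≤ 1 := by
            rw [Real.exp_le_one_iff]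
            have : (0 : ℝ) ≤ c / N := by positivity
            linarith
          linarith
        have hq1 : q ≤ 1 := by
          rw [hq]
          have := Real.exp_pos (-(c / N : ℝ))
          linarith
        have e1 : c0 + (1 - c0) * η = ENNReal.ofReal (1 - q * δ) := by
          have h1 : (1 : ℝ≥0∞) - c0 = ENNReal.ofReal q := by
            rw [hc0, ← ENNReal.ofReal_one, ← ENNReal.ofReal_sub _ (Real.exp_nonneg _)]
          rw [h1, hη, ← ENNReal.ofReal_mul hq0, hc0, ← ENNReal.ofReal_add (Real.exp_nonneg _)]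
          · congr 1
            rw [hq]; ring
          · apply mul_nonneg hq0
            linarith
        rw [e1, hη]
        have h2 : 0 ≤ 1 - q * δ := by nlinarith
        rw [← ENNReal.ofReal_pow h2]
        apply ENNReal.ofReal_le_ofReal
        have h3 : 1 - q * δ ≤ Real.exp (-(q * δ)) := by
          have := Real.add_one_le_exp (-(q * δ))
          linarith
        have hqlow : c / (N + c) ≤ q := by
          have h4 : Real.exp (c / N : ℝ) ≥ 1 + c / N := by
            have := Real.add_one_le_exp (c / N : ℝ)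
            linarith
          have h5 : Real.exp (-(c / N : ℝ)) ≤ ((1 : ℝ) + (c : ℝ) / (N : ℝ))⁻¹ := by
            rw [Real.exp_neg]
            exact inv_anti₀ (by positivity) h4
          rw [hq]
          have h6 : (1 : ℝ) - ((1 : ℝ) + (c : ℝ) / (N : ℝ))⁻¹ = (c : ℝ) / ((N : ℝ) + (c : ℝ)) := by
            have : (0 : ℝ) < N + c := by positivity
            field_simp
            ring
          linarith
        have hqNK : c' ≤ q * ((N - K : ℕ) : ℝ) := by
          have hKN : K ≤ N := by omega
          rw [Nat.cast_sub hKN]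
          have h7 : c' ≤ c / (N + c) * (N - K) := by
            have : (0 : ℝ) < N + c := by positivity
            rw [div_mul_eq_mul_div, le_div_iff₀ this]
            have h8 : (c' * c + c * K) / (c - c') < N := by
              refine lt_of_lt_of_le hN0 ?_
              have : N0 ≤ N := by omega
              exact_mod_cast this
            rw [div_lt_iff₀ (by linarith)] at h8
            nlinarith
          refine h7.trans ?_
          apply mul_le_mul_of_nonneg_right hqlow
          have : (K : ℝ) ≤ N := by exact_mod_cast hKN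
          linarith
        calc (1 - q * δ) ^ (N - K) ≤ (Real.exp (-(q * δ))) ^ (N - K) := pow_le_pow_left₀ h2 h3 _
          _ = Real.exp (-((q * ((N - K : ℕ) : ℝ)) * δ)) := by
              rw [← Real.exp_nat_mul]; congr 1; ring
          _ ≤ Real.exp (-(c' * δ)) := by
              apply Real.exp_le_exp.mpr
              have := mul_le_mul_of_nonneg_right hqNK hδ0.le
              linarith
          _ ≤ 1 - δ := hexp)
      K ∅ (by simp) 1 (by simp)
    have hcompl : (big (Set.univ : Set Γ) 1 K)ᶜ ⊆
        {ω : Sym2 Γ → ℕ | (cE ω (wi ((∅ : Finset Γ) : Set Γ)ᶜ) 1).encard ≤ K} := by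
      intro ω hω
      simp only [big, Set.mem_compl_iff, Set.mem_ofPred_eq, not_le] at hω ⊢
      rw [← clu_eq_cE]
      simpa using hω.le
    have h1 : P w (big (Set.univ : Set Γ) 1 K)ᶜ ≤ ENNReal.ofReal (1 - δ) :=
      (measure_mono hcompl).trans hkey
    have h2 : P w (big (Set.univ : Set Γ) 1 K) = 1 - P w (big (Set.univ : Set Γ) 1 K)ᶜ := by
      rw [prob_compl_eq_one_sub (measurableSet_big_univ _ _)]
      rw [ENNReal.sub_sub_cancel (by simp) prob_le_one]
    rw [h2]
    have h3 : ENNReal.ofReal δ ≤ 1 - P w (big (Set.univ : Set Γ) 1 K)ᶜ := by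
      have h4 : ENNReal.ofReal δ = 1 - ENNReal.ofReal (1 - δ) := by
        rw [← ENNReal.ofReal_one, ← ENNReal.ofReal_sub _ (by linarith)]
        congr 1
        ring
      rw [h4]
      exact tsub_le_tsub_left h1 1
    refine lt_of_lt_of_le ?_ h3
    exact (ENNReal.ofReal_lt_ofReal_iff hδ0).mpr (by linarith)

end Pool.Agent.V11321.LRP
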