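import Mathlib
import Pool.Agent.V11321.LRP.Explore
import Pool.Agent.V11321.LRP.Defs

set_option autoImplicit false
set_option linter.unusedSectionVars false

open MeasureTheory ProbabilityTheory
open scoped ENNReal NNReal

namespace Pool.Agent.V11321.LRP

section

variable {V : Type*}

/-- `y` can be reached from `x` by an open self-avoiding path of at most `n` steps avoiding `F`. -/
def R : ℕ → Set V → V → V → Set (Sym2 V → ℕ)
  | 0, _, x, y => {_ω | x = y}
  | n + 1, F, x, y => {_ω | x = y} ∪ ⋃ z ∈ {z | z ∉ F ∧ z ≠ x},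
      ({ω | 0 < ω s(x, z)} ∩ R n (insert x F) z y)

lemma R_mono_succ (n : ℕ) : ∀ (F : Set V) (x y : V), R n F x y ⊆ R (n + 1) F x y := by
  induction n with
  | zero => intro F x y; exact Set.subset_union_left
  | succ n ih =>
    intro F x y
    refine Set.union_subset_union_right _ ?_
    refine Set.iUnion₂_mono fun z hz => ?_
    exact Set.inter_subset_inter_right _ (ih _ _ _)

lemma R_mono {F : Set V} {x y : V} : Monotone fun n => R n F x y :=
  monotone_nat_of_le_succ fun n => R_mono_succ n F x y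

lemma R_dependsOn (n : ℕ) : ∀ (F : Set V) (x y : V), x ∉ F →
    DependsOn (fun ω : Sym2 V → ℕ => ω ∈ R n F x y) (wi Fᶜ) := by
  induction n with
  | zero => intro F x y _ ω ω' _; rfl
  | succ n ih =>
    intro F x y hx ω ω' h
    have key : ∀ z, z ∉ F ∧ z ≠ x → ((0 < ω s(x, z) ∧ ω ∈ R n (insert x F) z y) ↔
        (0 < ω' s(x, z) ∧ ω' ∈ R n (insert x F) z y)) := by
      rintro z ⟨hz, hzx⟩
      have h1 : ω s(x, z) = ω' s(x, z) := h _ (by rw [mk_mem_wi]; exact ⟨hx, hz⟩)
      have hd := ih (insert x F) z y (by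
        rintro (h | h)
        · exact hzx h
        · exact hz h)
      have h2 := hd (show ∀ e ∈ wi (insert x F)ᶜ, ω e = ω' e from fun e he => h e (fun v hv hvF =>
        he v hv (Or.inr hvF)))
      simp only [eq_iff_iff] at h2
      rw [h1, h2]
    simp only [R, Set.mem_union, Set.mem_ofPred_eq, Set.mem_iUnion, Set.mem_inter_iff, eq_iff_iff]
    apply or_congr Iff.rfl
    constructor
    · rintro ⟨z, hz, h⟩
      exact ⟨z, hz, (key z hz).mp h⟩
    · rintro ⟨z, hz, h⟩
      exact ⟨z, hz, (key z hz).mpr h⟩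

lemma measurableSet_pos (e : Sym2 V) : MeasurableSet {ω : Sym2 V → ℕ | 0 < ω e} :=
  measurableSet_of_dependsOn {e} _ (by
    intro ω ω' h
    have := h e (by simp)
    simp [this])

lemma measurableSet_R [Countable V] (n : ℕ) : ∀ (F : Set V) (x y : V),
    MeasurableSet (R n F x y) := by
  induction n with
  | zero => intro F x y; exact MeasurableSet.const _
  | succ n ih =>
    intro F x y
    refine (MeasurableSet.const _).union ?_
    refine MeasurableSet.biUnion (Set.to_countable _) fun z _ => ?_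
    exact (measurableSet_pos _).inter (ih _ _ _)

lemma P_pos_le (w : Sym2 V → ℝ≥0) (e : Sym2 V) : P w {ω | 0 < ω e} ≤ w e := by
  have h0 : P w {ω | ω e = 0} = ENNReal.ofReal (Real.exp (-(w e : ℝ))) := by
    have := P_zero_set w {e}
    simpa using this
  have hm0 : MeasurableSet {ω : Sym2 V → ℕ | ω e = 0} :=
    measurableSet_of_dependsOn {e} _ (by
      intro ω ω' h
      have := h e (by simp)
      simp [this])
  have h1 : P w {ω : Sym2 V → ℕ | 0 < ω e} = 1 - P w {ω | ω e = 0} := by
    rw [← prob_compl_eq_one_sub hm0]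
    congr 1
    ext ω
    simp [Nat.pos_iff_ne_zero]
  rw [h1, h0, ← ENNReal.ofReal_one, ← ENNReal.ofReal_sub _ (Real.exp_nonneg _)]
  rw [← ENNReal.ofReal_coe_nnreal]
  apply ENNReal.ofReal_le_ofReal
  have := Real.add_one_le_exp (-(w e : ℝ))
  linarith

lemma sum_R_le [Countable V] (w : Sym2 V → ℝ≥0) {l : ℝ≥0∞} (hw : ∀ x, ∑' z, (w s(x, z) : ℝ≥0∞) ≤ l)
    (n : ℕ) : ∀ (F : Set V) (x : V), x ∉ F →
      ∑' y, P w (R n F x y) ≤ ∑ k ∈ Finset.range (n + 1), l ^ k := by
  classical
  have h0 : ∀ x : V, ∑' y, P w ({_ω | x = y} : Set (Sym2 V → ℕ)) = 1 := by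
    intro x
    rw [tsum_eq_single x]
    · simp
    · intro y hy
      have : ({_ω | x = y} : Set (Sym2 V → ℕ)) = ∅ := by
        ext ω
        simp [hy.symm]
      rw [this]
      simp
  induction n with
  | zero =>
    intro F x hx
    simp only [zero_add, Finset.range_one, Finset.sum_singleton, pow_zero]
    exact (h0 x).le
  | succ n ih =>
    intro F x hx
    have hy : ∀ y, P w (R (n + 1) F x y) ≤ P w ({_ω | x = y} : Set (Sym2 V → ℕ)) +
        ∑' z, (w s(x, z) : ℝ≥0∞) * (if z ∉ insert x F then P w (R n (insert x F) z y) else 0) := by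
      intro y
      refine (measure_union_le _ _).trans ?_
      gcongr
      have : (⋃ z ∈ {z | z ∉ F ∧ z ≠ x}, ({ω : Sym2 V → ℕ | 0 < ω s(x, z)} ∩ R n (insert x F) z y))
          ⊆ ⋃ z, (if z ∉ insert x F then ({ω : Sym2 V → ℕ | 0 < ω s(x, z)} ∩ R n (insert x F) z y)
            else ∅) := by
        intro ω hω
        simp only [Set.mem_iUnion, Set.mem_ofPred_eq] at hω ⊢
        obtain ⟨z, hz, hω⟩ := hω
        refine ⟨z, ?_⟩
        have hz' : z ∉ insert x F := by
          rintro (h | h)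
          · exact hz.2 h
          · exact hz.1 h
        rw [if_pos hz']
        exact hω
      refine (measure_mono this).trans ((measure_iUnion_le _).trans ?_)
      refine ENNReal.tsum_le_tsum fun z => ?_
      by_cases hz : z ∉ insert x F
      · rw [if_pos hz, if_pos hz]
        rw [P_inter_of_dependsOn w (I := {s(x, z)}) (J := wi (insert x F)ᶜ)]
        · exact mul_le_mul' (P_pos_le w _) le_rfl
        · rw [Set.disjoint_singleton_left]
          intro h
          exact (h x (by simp)) (Or.inl rfl)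
        · exact measurableSet_pos _
        · exact measurableSet_R _ _ _ _
        · intro ω ω' h
          have := h s(x, z) (by simp)
          simp [this]
        · exact R_dependsOn _ _ _ _ hz
      · rw [if_neg hz, if_neg hz]
        simp
    calc ∑' y, P w (R (n + 1) F x y) ≤ ∑' y, (P w ({_ω | x = y} : Set (Sym2 V → ℕ)) +
        ∑' z, (w s(x, z) : ℝ≥0∞) * (if z ∉ insert x F then P w (R n (insert x F) z y) else 0)) :=
          ENNReal.tsum_le_tsum hy
      _ = 1 + ∑' z, (w s(x, z) : ℝ≥0∞) *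
          ∑' y, (if z ∉ insert x F then P w (R n (insert x F) z y) else 0) := by
          rw [ENNReal.tsum_add, h0, ENNReal.tsum_comm]
          congr 1
          refine tsum_congr fun z => ?_
          rw [ENNReal.tsum_mul_left]
      _ ≤ 1 + ∑' z, (w s(x, z) : ℝ≥0∞) * ∑ k ∈ Finset.range (n + 1), l ^ k := by
          gcongr with z
          by_cases hz : z ∉ insert x F
          · simp only [if_pos hz]
            exact ih _ _ hz
          · simp only [if_neg hz, tsum_zero]
            exact bot_le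
      _ ≤ 1 + l * ∑ k ∈ Finset.range (n + 1), l ^ k := by
          rw [ENNReal.tsum_mul_right]
          gcongr
          exact hw x
      _ = ∑ k ∈ Finset.range (n + 1 + 1), l ^ k := by
          rw [Finset.sum_range_succ' _ (n + 1), Finset.mul_sum, add_comm, pow_zero]
          congr 1
          refine Finset.sum_congr rfl fun k _ => ?_
          rw [pow_succ']

lemma mem_R_of_path (ω : Sym2 V → ℕ) : ∀ (x y : V) (p : (gE ω Set.univ).Walk x y) (F : Set V),
    p.IsPath → (∀ v ∈ p.support, v ∉ F) → ω ∈ R p.length F x y := by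
  intro x y p
  induction p with
  | nil => intro F _ _; exact rfl
  | @cons u v w h p ih =>
    intro F hp hF
    rw [SimpleGraph.Walk.cons_isPath_iff] at hp
    rw [SimpleGraph.Walk.length_cons]
    right
    simp only [Set.mem_iUnion, Set.mem_ofPred_eq, Set.mem_inter_iff]
    refine ⟨v, ⟨hF v (by simp), h.1.symm⟩, h.2.1, ih _ hp.1 ?_⟩
    intro z hz
    rintro (hzu | hzF)
    · subst hzu
      exact hp.2 hz
    · exact hF z (by simp [hz]) hzF

lemma ae_finite_cluster [Countable V] (w : Sym2 V → ℝ≥0) {l : ℝ≥0∞} (hl : l < 1)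
    (hw : ∀ x, ∑' z, (w s(x, z) : ℝ≥0∞) ≤ l) (x : V) :
    ∀ᵐ ω ∂(P w), (cE ω Set.univ x).Finite := by
  classical
  have h1 : ∑' y, P w {ω | y ∈ cE ω Set.univ x} ≤ (1 - l)⁻¹ := by
    have h2 : ∀ y, P w {ω | y ∈ cE ω Set.univ x} ≤ ⨆ n, P w (R n ∅ x y) := by
      intro y
      rw [← (R_mono (F := (∅ : Set V)) (x := x) (y := y)).measure_iUnion]
      refine measure_mono fun ω hω => ?_
      obtain ⟨p⟩ := (hω : (gE ω Set.univ).Reachable x y)
      refine Set.mem_iUnion.mpr ⟨p.toPath.1.length, ?_⟩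
      exact mem_R_of_path ω x y p.toPath.1 ∅ p.toPath.2 (fun v _ => by simp)
    calc ∑' y, P w {ω | y ∈ cE ω Set.univ x} ≤ ∑' y, ⨆ n, P w (R n ∅ x y) :=
          ENNReal.tsum_le_tsum h2
      _ ≤ (1 - l)⁻¹ := by
          rw [ENNReal.tsum_eq_iSup_sum]
          refine iSup_le fun s => ?_
          have hmono : ∀ y, Monotone (fun n => P w (R n ∅ x y)) :=
            fun y m n hmn => measure_mono (R_mono hmn)
          rw [ENNReal.finsetSum_iSup_of_monotone hmono]
          refine iSup_le fun n => ?_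
          refine (ENNReal.sum_le_tsum s).trans ((sum_R_le w hw n ∅ x (by simp)).trans ?_)
          rw [← ENNReal.tsum_geometric]
          exact ENNReal.sum_le_tsum _
  have h3 : ∑' y, P w {ω | y ∈ cE ω Set.univ x} ≠ ⊤ := by
    refine ne_top_of_le_ne_top ?_ h1
    rw [Ne, ENNReal.inv_eq_top]
    exact (tsub_pos_of_lt hl).ne'
  have h4 := ae_finite_setOfPred_mem h3
  filter_upwards [h4] with ω hω
  exact hω

end

section group

variable {Γ : Type*} [Group Γ]

lemma law_eq' (μ : GenMeasure Γ) (l : ℝ≥0) : μ.law l = P (fun e => l * μ.pair e) := rfl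

lemma gE_univ (ω : Sym2 Γ → ℕ) : gE ω Set.univ = graph ω := by
  ext x y
  simp [gE, graph]

lemma law_zero [Countable Γ] (μ : GenMeasure Γ) {l : ℝ≥0} (hl : l < 1) :
    μ.law l {ω | HasInfiniteComponent ω} = 0 := by
  rw [law_eq']
  have hw : ∀ x : Γ, ∑' z, ((l * μ.pair s(x, z) : ℝ≥0) : ℝ≥0∞) ≤ l := by
    intro x
    have : ∀ z, ((l * μ.pair s(x, z) : ℝ≥0) : ℝ≥0∞) = l * μ.toPMF (x⁻¹ * z) := by
      intro z
      have : μ.pair s(x, z) = (μ.toPMF (x⁻¹ * z)).toNNReal := rfl
      rw [this, ENNReal.coe_mul, ENNReal.coe_toNNReal (μ.toPMF.apply_ne_top _)]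
    simp_rw [this]
    rw [ENNReal.tsum_mul_left]
    have h2 : ∑' z, μ.toPMF (x⁻¹ * z) = ∑' z, μ.toPMF z :=
      (Equiv.mulLeft x⁻¹).tsum_eq (fun z => μ.toPMF z)
    rw [h2, μ.toPMF.tsum_coe, mul_one]
  have h1 := fun x => ae_finite_cluster (fun e => l * μ.pair e) (by exact_mod_cast hl) hw x
  rw [← ae_all_iff] at h1
  have : ∀ᵐ ω ∂(P fun e => l * μ.pair e), ¬ HasInfiniteComponent ω := by
    filter_upwards [h1] with ω hω
    rintro ⟨c, hc⟩
    obtain ⟨x, rfl⟩ := c.exists_rep
    apply hc
    have e : ((graph ω).connectedComponentMk x).supp = cE ω Set.univ x := by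
      ext y
      simp only [SimpleGraph.ConnectedComponent.mem_supp_iff, SimpleGraph.ConnectedComponent.eq, cE,
        Set.mem_ofPred_eq, gE_univ]
      exact SimpleGraph.reachable_comm
    show ((graph ω).connectedComponentMk x).supp.Finite
    rw [e]
    exact hω x
  have h2 := ae_iff.mp this
  simpa using h2

lemma one_le_lambdaC [Countable Γ] (μ : GenMeasure Γ) : 1 ≤ μ.lambdaC := by
  refine le_of_forall_lt fun a ha => ?_
  obtain ⟨b, hab, hb⟩ := exists_between ha
  have hbt : b ≠ ⊤ := ne_top_of_lt hb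
  refine lt_of_lt_of_le hab (le_sSup ⟨b.toNNReal, ?_, ?_, (ENNReal.coe_toNNReal hbt).symm⟩)
  · rw [ENNReal.toNNReal_pos_iff]
    exact ⟨lt_of_le_of_lt bot_le hab, hbt.lt_top⟩
  · apply law_zero
    rw [← ENNReal.coe_lt_coe, ENNReal.coe_toNNReal hbt]
    exact_mod_cast hb

end group

end Pool.Agent.V11321.LRP
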