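import Mathlib
import Pool.Agent.V11321.LRP.Final1
import Pool.Agent.V11321.LRP.Explore3
import Pool.Agent.V11321.LRP.Lower

set_option autoImplicit false
set_option linter.unusedSectionVars false

open MeasureTheory ProbabilityTheory
open scoped ENNReal NNReal

namespace Pool.Agent.V11321.LRP

lemma exists_lambdaC_le (Γ : Type*) [Group Γ] [Countable Γ] [Infinite Γ] {L : ℝ≥0} (hL : 1 < L) :
    ∃ μ : GenMeasure Γ, μ.lambdaC ≤ L := by
  classical
  obtain ⟨c, hc1, hcL⟩ := exists_between hL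
  have hL0 : 0 < L := lt_trans one_pos hL
  have hc0 : 0 < c := lt_trans one_pos hc1
  set α : ℝ≥0 := c / L with hα
  have hα1 : α < 1 := by rw [hα, div_lt_one hL0]; exact hcL
  set β : ℝ≥0 := (1 - α) / 2 with hβ
  have hβ0 : 0 < β := by
    rw [hβ]
    exact div_pos (tsub_pos_of_lt hα1) two_pos
  have hsumc : α + β + β = 1 := by
    rw [add_assoc, hβ, add_halves]
    exact add_tsub_cancel_of_le hα1.le
  set κ : ℝ≥0 := L * β with hκ
  have hκ0 : 0 < κ := mul_pos hL0 hβ0
  obtain ⟨θ0, hθ0, hfl⟩ := first_level Γ hc1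
  obtain ⟨M0', hM0'⟩ := exists_nat_gt (64 / (θ0 * κ))
  set M0 := M0' + 1 with hM0
  have hk : 64 ≤ θ0 * κ * M0 := by
    have hpos : 0 < θ0 * κ := mul_pos hθ0 (by exact_mod_cast hκ0)
    have : 64 / (θ0 * κ) < M0 := by
      refine hM0'.trans ?_
      rw [hM0]
      push_cast
      linarith
    rw [div_lt_iff₀ hpos] at this
    linarith
  obtain ⟨ν0, hν1, hν2, hν3⟩ := hfl M0
  obtain ⟨ρ, h1, h2, h3⟩ := tower (Γ := Γ) hθ0 hκ0 (M0 := M0) (by omega) hk (fun g => c * ν0 g) hν3
  obtain ⟨p, hp1, hp2⟩ := exists_full (Γ := Γ)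
  have hsum : HasSum (fun g => (α : ℝ≥0∞) * ν0 g + β * ρ g + β * p g) 1 := by
    have h4 : ∑' g, ((α : ℝ≥0∞) * ν0 g + β * ρ g + β * p g) = 1 := by
      rw [ENNReal.tsum_add, ENNReal.tsum_add, ENNReal.tsum_mul_left, ENNReal.tsum_mul_left,
        ENNReal.tsum_mul_left, hν2, h2, p.tsum_coe, mul_one, mul_one]
      exact_mod_cast hsumc
    rw [← h4]
    exact ENNReal.summable.hasSum
  let q : PMF Γ := ⟨fun g => (α : ℝ≥0∞) * ν0 g + β * ρ g + β * p g, hsum⟩
  have hq : ∀ g, q g = (α : ℝ≥0∞) * ν0 g + β * ρ g + β * p g := fun g => rfl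
  let μ : GenMeasure Γ :=
    { toPMF := q
      symm := fun g => by rw [hq, hq, h1, hp1, hν1]
      gen := by
        have : q.support = Set.univ := by
          refine Set.eq_univ_of_forall fun g => ?_
          rw [PMF.mem_support_iff, hq]
          intro h0
          have := (add_eq_zero.mp h0).2
          rcases mul_eq_zero.mp this with h | h
          · have : β = 0 := by exact_mod_cast h
            exact hβ0.ne' this
          · exact hp2 g h
        rw [this]
        exact Subgroup.closure_univ }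
  refine ⟨μ, sSup_le ?_⟩
  rintro x ⟨l, hl, hP, rfl⟩
  by_contra hc
  push Not at hc
  have hlL : L ≤ l := by
    exact (ENNReal.coe_lt_coe.mp hc).le
  rw [law_eq] at hP
  refine pos_infinite (θ := θ0 / 2) (by positivity) (M0 := M0) (by omega) (fun n => ?_) hP
  refine h3 _ (fun x => ?_) n
  have hx : α * ν0 x + β * ρ x ≤ (μ.toPMF x).toNNReal := by
    have h5 : ((α * ν0 x + β * ρ x : ℝ≥0) : ℝ≥0∞) ≤ q x := by
      rw [hq]
      push_cast
      exact le_self_add
    have h6 : q x ≠ ⊤ := q.apply_ne_top x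
    rw [← ENNReal.coe_le_coe]
    show _ ≤ ((q x).toNNReal : ℝ≥0∞)
    rw [ENNReal.coe_toNNReal h6]
    exact h5
  calc c * ν0 x + κ * ρ x = L * (α * ν0 x + β * ρ x) := by
        rw [hκ, hα, mul_add]
        congr 1
        · rw [← mul_assoc, mul_div_cancel₀ _ hL0.ne']
        · ring
    _ ≤ l * (μ.toPMF x).toNNReal := mul_le_mul' hlL hx

theorem iInf_lambdaC (Γ : Type*) [Group Γ] [Countable Γ] [Infinite Γ] :
    ⨅ μ : GenMeasure Γ, μ.lambdaC = 1 := by
  apply le_antisymm
  · refine le_of_forall_gt fun a ha => ?_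
    obtain ⟨b, hb1, hba⟩ := exists_between ha
    have hbt : b ≠ ⊤ := ne_top_of_lt hba
    obtain ⟨μ, hμ⟩ := exists_lambdaC_le Γ (L := b.toNNReal) (by
      rw [← ENNReal.coe_lt_coe, ENNReal.coe_toNNReal hbt]
      exact_mod_cast hb1)
    rw [ENNReal.coe_toNNReal hbt] at hμ
    exact lt_of_le_of_lt ((iInf_le _ μ).trans hμ) hba
  · exact le_iInf fun μ => one_le_lambdaC μ

end Pool.Agent.V11321.LRP
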